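import Pool.Agent.helper24.SK.Spec
import Pool.Agent.helper9.Tors.Divs

/-!
# Project sk, row SML: all variables bounded
-/

set_option autoImplicit false

namespace Pool.Agent.SK

open Finset ArithmeticFunction MeasureTheory
open Pool.Agent.CH (nit DPb Win Tset ph)
open Pool.Agent.EC (tri vN fN XN TL AdT)
open Pool.Agent.helper85.BVP (tau)
open GD (ks)

private lemma SML_log (k : ℕ) (ε : ℝ) (hε : 0 < ε) :
    ∃ N₀ : ℕ, ∀ N : ℕ, N₀ ≤ N → Real.log N ^ k ≤ (N : ℝ) ^ ε := by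
  have h := (isLittleO_log_rpow_rpow_atTop (k : ℝ) hε).bound (one_pos)
  have h2 := (h.and (Filter.eventually_ge_atTop (3 : ℝ)))
  obtain ⟨x₀, hx⟩ := Filter.eventually_atTop.1 h2
  obtain ⟨n, hn⟩ := exists_nat_ge x₀
  refine ⟨n, fun N hN => ?_⟩
  have hNx : x₀ ≤ (N : ℝ) := hn.trans (by exact_mod_cast hN)
  obtain ⟨h3, h4⟩ := hx N hNx
  rw [one_mul, Real.rpow_natCast] at h3
  have h5 : (0 : ℝ) ≤ (N : ℝ) ^ ε := Real.rpow_nonneg (Nat.cast_nonneg _) _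
  rw [Real.norm_of_nonneg h5] at h3
  exact (le_abs_self _).trans h3

private lemma SML_nit_prod {R : ℕ} (t : ℝ) (m : Fin R → ℕ) (hm : ∀ i, 1 ≤ m i) :
    nit t ((∏ i, m i : ℕ) : ℝ) = ∏ i, nit t (m i : ℝ) := by
  unfold nit
  rw [Nat.cast_prod, Real.log_prod, ← Complex.exp_sum]
  · congr 1
    rw [mul_sum]
    push_cast
    rw [sum_mul]
  · intro i _
    have := hm i
    exact_mod_cast (by omega : m i ≠ 0)

private lemma SML_poly {R : ℕ} (e : Fin R → ℕ) (c : Fin R → ℕ → ℂ) (t : ℝ) :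
    ∑ m ∈ Fintype.piFinset (fun k : Fin R => Ico (2 ^ e k) (2 ^ (e k + 1))),
      (∏ k, c k (m k)) * nit t ((∏ k, m k : ℕ) : ℝ) = ∏ k, DPb (2 ^ e k) (c k) t := by
  unfold DPb
  rw [Finset.prod_univ_sum]
  have hset : (fun k : Fin R => Ico (2 ^ e k) (2 * 2 ^ e k)) =
      fun k : Fin R => Ico (2 ^ e k) (2 ^ (e k + 1)) := by
    funext k
    rw [pow_succ, mul_comm 2]
  rw [hset]
  refine sum_congr rfl fun m hm => ?_
  rw [Fintype.mem_piFinset] at hm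
  rw [SML_nit_prod t m (fun i => (Nat.one_le_two_pow).trans (mem_Ico.1 (hm i)).1), ← prod_mul_distrib]

/-- the coefficients -/
private lemma SML_uu {r : ℕ} (N z X : ℕ) (a b : Fin r → ℝ) (i : ℕ) (k : Fin (r + 2 * i)) (m : ℕ) :
    |uu N z X a b i k m| ≤ 1 + Real.log m := by
  have hl : 0 ≤ Real.log m := Real.log_natCast_nonneg m
  unfold uu
  split_ifs with h1 h2 h3
  · show |if m.Prime ∧ _ ∧ _ then (1 : ℝ) else 0| ≤ _
    split_ifs
    · rw [abs_one]; linarith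
    · rw [abs_zero]; linarith
  · show |if m ≤ z then ((moebius m : ℤ) : ℝ) else 0| ≤ _
    split_ifs
    · have := abs_moebius_le_one (n := m)
      have h4 : |((moebius m : ℤ) : ℝ)| ≤ 1 := by exact_mod_cast this
      linarith
    · rw [abs_zero]; linarith
  · show |if 1 ≤ m ∧ m ≤ X then Real.log m ^ 0 else 0| ≤ _
    split_ifs
    · rw [pow_zero, abs_one]; linarith
    · rw [abs_zero]; linarith
  · show |if 1 ≤ m ∧ m ≤ X then Real.log m ^ 1 else 0| ≤ _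
    split_ifs
    · rw [pow_one, abs_of_nonneg hl]; linarith
    · rw [abs_zero]; linarith

/-- the support -/
private lemma SML_supp {r : ℕ} (N : ℕ) (hN : 8 ≤ N) (a b : Fin r → ℝ) (hb : ∀ j, b j ≤ 3 / 2) (i : ℕ)
    (k : Fin (r + 2 * i)) (m : ℕ) (hm2 : N ^ 2 < m) :
    uu N (zN N) (YN N) a b i k m = 0 := by
  have hN1 : (1 : ℝ) ≤ N := by exact_mod_cast (by omega : 1 ≤ N)
  have hN8 : (8 : ℝ) ≤ N := by exact_mod_cast hN
  have hm3 : (N : ℝ) ^ 2 < m := by exact_mod_cast hm2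
  unfold uu
  split_ifs with h1 h2 h3
  · show (if m.Prime ∧ _ ∧ (m : ℝ) < (N : ℝ) ^ b ⟨k, h1⟩ then (1 : ℝ) else 0) = 0
    rw [if_neg]
    rintro ⟨-, -, h4⟩
    have h5 : (N : ℝ) ^ b ⟨k, h1⟩ ≤ (N : ℝ) ^ (2 : ℝ) :=
      Real.rpow_le_rpow_of_exponent_le hN1 (by linarith [hb ⟨k, h1⟩])
    rw [Real.rpow_two] at h5
    linarith
  · show (if m ≤ zN N then ((moebius m : ℤ) : ℝ) else 0) = 0
    rw [if_neg]
    intro h4
    have h5 : ((zN N : ℕ) : ℝ) ≤ 4 * (N : ℝ) ^ (3 / 7 : ℝ) := Nat.floor_le (by positivity)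
    have h6 : (N : ℝ) ^ (3 / 7 : ℝ) ≤ (N : ℝ) ^ (1 : ℝ) :=
      Real.rpow_le_rpow_of_exponent_le hN1 (by norm_num)
    rw [Real.rpow_one] at h6
    have : (m : ℝ) ≤ zN N := by exact_mod_cast h4
    nlinarith
  · show (if 1 ≤ m ∧ m ≤ YN N then Real.log m ^ 0 else 0) = 0
    rw [if_neg]
    rintro ⟨-, h4⟩
    have h5 : ((YN N : ℕ) : ℝ) ≤ (N : ℝ) ^ (101 / 100 : ℝ) := Nat.floor_le (by positivity)
    have h6 : (N : ℝ) ^ (101 / 100 : ℝ) ≤ (N : ℝ) ^ (2 : ℝ) :=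
      Real.rpow_le_rpow_of_exponent_le hN1 (by norm_num)
    rw [Real.rpow_two] at h6
    have : (m : ℝ) ≤ YN N := by exact_mod_cast h4
    linarith
  · show (if 1 ≤ m ∧ m ≤ YN N then Real.log m ^ 1 else 0) = 0
    rw [if_neg]
    rintro ⟨-, h4⟩
    have h5 : ((YN N : ℕ) : ℝ) ≤ (N : ℝ) ^ (101 / 100 : ℝ) := Nat.floor_le (by positivity)
    have h6 : (N : ℝ) ^ (101 / 100 : ℝ) ≤ (N : ℝ) ^ (2 : ℝ) :=
      Real.rpow_le_rpow_of_exponent_le hN1 (by norm_num)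
    rw [Real.rpow_two] at h6
    have : (m : ℝ) ≤ YN N := by exact_mod_cast h4
    linarith

/-- integers close to `e^v` -/
private lemma SML_near (N : ℕ) (hN : 8 ≤ N) (v : ℝ) (hv : |v - 3 * Real.log N| ≤ 1) (J : Finset ℕ)
    (hJ : ∀ j ∈ J, 1 ≤ j ∧ |Real.log (j : ℝ) - v| ≤ 2 / N) : (#J : ℝ) ≤ 16 * (N : ℝ) ^ 2 := by
  have hN0 : (8 : ℝ) ≤ N := by exact_mod_cast hN
  have hNpos : (0 : ℝ) < N := by linarith
  set y : ℝ := 2 / N with hy
  have hy0 : 0 < y := by positivity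
  have hy1 : y ≤ 1 / 4 := by rw [hy, div_le_div_iff₀ hNpos (by norm_num)]; linarith
  have hsub : J ⊆ Icc ⌈Real.exp (v - y)⌉₊ ⌊Real.exp (v + y)⌋₊ := by
    intro j hj
    obtain ⟨h1, h2⟩ := hJ j hj
    have hj0 : (0 : ℝ) < j := by exact_mod_cast h1
    rw [abs_le] at h2
    rw [mem_Icc]
    constructor
    · rw [Nat.ceil_le, ← Real.le_log_iff_exp_le hj0]; linarith
    · rw [Nat.le_floor_iff (Real.exp_pos _).le, ← Real.log_le_iff_le_exp hj0]; linarith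
  have hcard : (#J : ℝ) ≤ Real.exp (v + y) - Real.exp (v - y) + 1 := by
    have h1 : (#J : ℝ) ≤ ((⌊Real.exp (v + y)⌋₊ + 1 - ⌈Real.exp (v - y)⌉₊ : ℕ) : ℝ) := by
      have := card_le_card hsub
      rw [Nat.card_Icc] at this
      exact_mod_cast this
    refine h1.trans ?_
    have h2 : (⌊Real.exp (v + y)⌋₊ : ℝ) ≤ Real.exp (v + y) := Nat.floor_le (Real.exp_pos _).le
    have h3 : Real.exp (v - y) ≤ (⌈Real.exp (v - y)⌉₊ : ℝ) := Nat.le_ceil _
    rcases le_total ⌈Real.exp (v - y)⌉₊ (⌊Real.exp (v + y)⌋₊ + 1) with h4 | h4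
    · rw [Nat.cast_sub h4]; push_cast; linarith
    · rw [Nat.sub_eq_zero_of_le h4]
      have h5 : Real.exp (v - y) ≤ Real.exp (v + y) := Real.exp_le_exp.2 (by linarith)
      push_cast
      linarith
  have he : Real.exp v ≤ 2.7182818286 * (N : ℝ) ^ 3 := by
    have h1 : v ≤ 1 + 3 * Real.log N := by have := (abs_le.1 hv).2; linarith
    have h2 : Real.exp (3 * Real.log N) = (N : ℝ) ^ 3 := by
      rw [mul_comm, Real.exp_mul, Real.exp_log hNpos]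
      norm_cast
    calc Real.exp v ≤ Real.exp (1 + 3 * Real.log N) := Real.exp_le_exp.2 h1
      _ = Real.exp 1 * (N : ℝ) ^ 3 := by rw [Real.exp_add, h2]
      _ ≤ _ := mul_le_mul_of_nonneg_right Real.exp_one_lt_d9.le (by positivity)
  have hd : Real.exp (v + y) - Real.exp (v - y) ≤ Real.exp v * (5 / 2 * y) := by
    have e1 : Real.exp (v + y) = Real.exp v * Real.exp y := Real.exp_add _ _
    have e2 : Real.exp (v - y) = Real.exp v * Real.exp (-y) := by rw [← Real.exp_add]; ring_nf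
    have e3 : Real.exp y ≤ 1 + y + y ^ 2 := by
      have := Real.abs_exp_sub_one_sub_id_le (x := y) (by rw [abs_of_pos hy0]; linarith)
      have := (abs_le.1 this).2
      linarith
    have e4 : 1 - y ≤ Real.exp (-y) := by have := Real.add_one_le_exp (-y); linarith
    rw [e1, e2, ← mul_sub]
    refine mul_le_mul_of_nonneg_left ?_ (Real.exp_pos _).le
    nlinarith
  have hfin : Real.exp v * (5 / 2 * y) ≤ 2.7182818286 * (N : ℝ) ^ 3 * (5 / 2 * y) :=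
    mul_le_mul_of_nonneg_right he (by positivity)
  have hval : 2.7182818286 * (N : ℝ) ^ 3 * (5 / 2 * y) = 13.591409143 * (N : ℝ) ^ 2 := by
    rw [hy]; field_simp; ring
  have h1 : (1 : ℝ) ≤ (N : ℝ) ^ 2 := by nlinarith
  linarith

/-- near tuples -/
private lemma SML_count (R : ℕ) : ∃ C : ℝ, 1 ≤ C ∧ ∀ N : ℕ, 8 ≤ N → ∀ v : ℝ, |v - 3 * Real.log N| ≤ 1 →
    ∀ R' ≤ R, ∀ S : Finset (Fin R' → ℕ), (∀ m ∈ S, ∀ k, 1 ≤ m k) →
    (#(S.filter fun m => |Real.log ((∏ k, m k : ℕ) : ℝ) - v| ≤ 2 / N) : ℝ) ≤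
      C * (N : ℝ) ^ 2 * (N : ℝ) ^ (1 / 800 : ℝ) := by
  classical
  set ε : ℝ := 1 / (3200 * ((R : ℝ) + 1)) with hε
  have hR0 : (0 : ℝ) ≤ R := Nat.cast_nonneg R
  have hε0 : 0 < ε := by positivity
  obtain ⟨C₀, hC₀, hdiv⟩ := Pool.Agent.helper9.Tors.divisor_bound ε hε0
  set C₁ : ℝ := max C₀ 1 with hC₁
  have hC₁1 : 1 ≤ C₁ := le_max_right _ _
  refine ⟨16 * C₁ ^ R * 8, ?_, ?_⟩
  · have : 1 ≤ C₁ ^ R := one_le_pow₀ hC₁1
    nlinarith
  intro N hN v hv R' hR' S hS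
  have hN0 : (8 : ℝ) ≤ N := by exact_mod_cast hN
  have hNpos : (0 : ℝ) < N := by linarith
  set F := S.filter fun m => |Real.log ((∏ k, m k : ℕ) : ℝ) - v| ≤ 2 / N with hF
  set J := F.image fun m => ∏ k, m k with hJ
  have hJprop : ∀ j ∈ J, 1 ≤ j ∧ |Real.log (j : ℝ) - v| ≤ 2 / N := by
    intro j hj
    rw [hJ, mem_image] at hj
    obtain ⟨m, hm, rfl⟩ := hj
    rw [hF, mem_filter] at hm
    exact ⟨Nat.succ_le_of_lt (Finset.prod_pos fun k _ => hS m hm.1 k), hm.2⟩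
  have hJcard := SML_near N hN v hv J hJprop
  have hfib : ∀ j ∈ J, (#(F.filter fun m => ∏ k, m k = j) : ℝ) ≤ C₁ ^ R * 8 * (N : ℝ) ^ (1 / 800 : ℝ) := by
    intro j hj
    obtain ⟨hj1, hj2⟩ := hJprop j hj
    have hj0 : (0 : ℝ) < j := by exact_mod_cast hj1
    have hcard : #(F.filter fun m => ∏ k, m k = j) ≤ j.divisors.card ^ R' := by
      have hsub : (F.filter fun m => ∏ k, m k = j) ⊆ Fintype.piFinset (fun _ : Fin R' => j.divisors) := by
        intro m hm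
        rw [mem_filter] at hm
        rw [Fintype.mem_piFinset]
        intro k
        rw [Nat.mem_divisors]
        refine ⟨?_, by omega⟩
        rw [← hm.2]
        exact Finset.dvd_prod_of_mem _ (mem_univ k)
      refine (card_le_card hsub).trans (le_of_eq ?_)
      rw [Fintype.card_piFinset]
      simp
    have hjN : (j : ℝ) ≤ 8 * (N : ℝ) ^ 3 := by
      have h1 : Real.log j ≤ 3 * Real.log N + 5 / 4 := by
        have h2 := (abs_le.1 hj2).2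
        have h3 := (abs_le.1 hv).2
        have h4 : 2 / (N : ℝ) ≤ 1 / 4 := by rw [div_le_div_iff₀ hNpos (by norm_num)]; linarith
        linarith
      have h5 : Real.log (8 * (N : ℝ) ^ 3) = Real.log 8 + 3 * Real.log N := by
        rw [Real.log_mul (by norm_num) (by positivity), Real.log_pow]; norm_num
      have h6 : (5 / 4 : ℝ) ≤ Real.log 8 := by
        rw [show (8 : ℝ) = 2 ^ 3 by norm_num, Real.log_pow]
        have := Real.log_two_gt_d9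
        push_cast
        linarith
      rw [← Real.log_le_log_iff hj0 (by positivity), h5]
      linarith
    have hjp : ((j.divisors.card : ℕ) : ℝ) ≤ C₁ * (8 * (N : ℝ) ^ 3) ^ ε := by
      refine (hdiv j (by omega)).trans ?_
      refine mul_le_mul (le_max_left _ _) ?_ (by positivity) (by linarith)
      exact Real.rpow_le_rpow hj0.le hjN hε0.le
    have hbase : 1 ≤ C₁ * (8 * (N : ℝ) ^ 3) ^ ε := by
      refine one_le_mul_of_one_le_of_one_le hC₁1 (Real.one_le_rpow ?_ hε0.le)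
      nlinarith [pow_pos hNpos 3, pow_le_pow_left₀ (by norm_num : (0 : ℝ) ≤ 8) hN0 3]
    calc (#(F.filter fun m => ∏ k, m k = j) : ℝ) ≤ ((j.divisors.card ^ R' : ℕ) : ℝ) := by
          exact_mod_cast hcard
      _ = ((j.divisors.card : ℕ) : ℝ) ^ R' := by push_cast; rfl
      _ ≤ (C₁ * (8 * (N : ℝ) ^ 3) ^ ε) ^ R' := pow_le_pow_left₀ (Nat.cast_nonneg _) hjp _
      _ ≤ (C₁ * (8 * (N : ℝ) ^ 3) ^ ε) ^ R := pow_le_pow_right₀ hbase hR'
      _ = C₁ ^ R * (8 * (N : ℝ) ^ 3) ^ (ε * R) := by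
          rw [mul_pow, ← Real.rpow_natCast ((8 * (N : ℝ) ^ 3) ^ ε), ← Real.rpow_mul (by positivity)]
      _ ≤ C₁ ^ R * (8 * (N : ℝ) ^ (1 / 800 : ℝ)) := by
          refine mul_le_mul_of_nonneg_left ?_ (by positivity)
          have hεR : ε * R ≤ 1 / 3200 := by
            rw [hε, one_div, inv_mul_le_iff₀ (by positivity)]
            linarith
          have h1 : (1 : ℝ) ≤ 8 * (N : ℝ) ^ 3 := by
            nlinarith [pow_le_pow_left₀ (by norm_num : (0 : ℝ) ≤ 8) hN0 3]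
          calc (8 * (N : ℝ) ^ 3) ^ (ε * R) ≤ (8 * (N : ℝ) ^ 3) ^ (1 / 3200 : ℝ) :=
                Real.rpow_le_rpow_of_exponent_le h1 hεR
            _ = 8 ^ (1 / 3200 : ℝ) * ((N : ℝ) ^ 3) ^ (1 / 3200 : ℝ) :=
                Real.mul_rpow (by norm_num) (by positivity)
            _ ≤ 8 * (N : ℝ) ^ (1 / 800 : ℝ) := by
                refine mul_le_mul ?_ ?_ (by positivity) (by norm_num)
                · calc (8 : ℝ) ^ (1 / 3200 : ℝ) ≤ 8 ^ (1 : ℝ) :=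
                      Real.rpow_le_rpow_of_exponent_le (by norm_num) (by norm_num)
                    _ = 8 := Real.rpow_one _
                · rw [← Real.rpow_natCast (N : ℝ) 3, ← Real.rpow_mul hNpos.le]
                  exact Real.rpow_le_rpow_of_exponent_le (by linarith) (by norm_num)
      _ = _ := by ring
  have hmaps : ∀ m ∈ F, (∏ k, m k) ∈ J := fun m hm => mem_image_of_mem _ hm
  have hsum := card_eq_sum_card_fiberwise hmaps
  rw [hsum]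
  push_cast
  calc ∑ j ∈ J, (#(F.filter fun m => ∏ k, m k = j) : ℝ)
      ≤ ∑ _j ∈ J, C₁ ^ R * 8 * (N : ℝ) ^ (1 / 800 : ℝ) := sum_le_sum hfib
    _ = #J * (C₁ ^ R * 8 * (N : ℝ) ^ (1 / 800 : ℝ)) := by rw [sum_const, nsmul_eq_mul]
    _ ≤ 16 * (N : ℝ) ^ 2 * (C₁ ^ R * 8 * (N : ℝ) ^ (1 / 800 : ℝ)) :=
        mul_le_mul_of_nonneg_right hJcard (by positivity)
    _ = _ := by ring

/-- one near block -/
private lemma SML_one {r : ℕ} (a b : Fin r → ℝ) (B₁ AF B A' Rm : ℕ) (C : ℝ) (N : ℕ) (v : ℝ) (q : ℕ)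
    (χ : DirichletCharacter ℂ q) (i : ℕ) (K : ℕ) (hR : r + 2 * i ≤ Rm) (hN : 8 ≤ N) (hL : 1 ≤ Real.log N)
    (hcount : ∀ S : Finset (Fin (r + 2 * i) → ℕ), (∀ m ∈ S, ∀ k, 1 ≤ m k) →
      (#(S.filter fun m => |Real.log ((∏ k, m k : ℕ) : ℝ) - v| ≤ 2 / N) : ℝ) ≤
        C * (N : ℝ) ^ 2 * (N : ℝ) ^ (1 / 800 : ℝ))
    (hlog : 1 + Real.log (2 * (N : ℝ) ^ 2) ≤ Real.log N ^ 2) (hK : 2 ^ K ≤ 2 * N ^ 2)
    (hF : ∀ (ι : Type) (S : Finset ι) (x : ι → ℕ) (f : ι → ℂ), (∀ w ∈ S, 1 ≤ x w) →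
      ‖∑ w ∈ S, f w * gj B N v (x w)‖ ≤ (∑ w ∈ S, ‖f w‖) / (N * Real.log N ^ AF) +
        (N : ℝ) ^ (-(1 / 200) : ℝ) * (∑ w ∈ S with |Real.log (x w : ℝ) - v| ≤ 2 / N, ‖f w‖) +
        1 / (N : ℝ) * ∫ t in Tset (1 / 200) B₁ N,
          ‖∑ w ∈ S, f w * nit t (x w : ℝ)‖ * min 1 (8 * (N : ℝ) ^ 2 / t ^ 2))
    (e : Fin (r + 2 * i) → ℕ) (he : ∀ k, e k < K) (he8 : ∏ k, 2 ^ e k ≤ 8 * N ^ 3)
    (hI : ∫ t in Tset (1 / 200) B₁ N, (∏ k, ‖DPb (2 ^ e k)
      (fun m => ((uu N (zN N) (YN N) a b i k m : ℝ) : ℂ) * χ m) t‖) * min 1 (8 * (N : ℝ) ^ 2 / t ^ 2) ≤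
        (N : ℝ) ^ 3 / Real.log N ^ A') :
    ‖∑ m ∈ Fintype.piFinset (fun k : Fin (r + 2 * i) => Ico (2 ^ e k) (2 ^ (e k + 1))),
      (∏ k, ((uu N (zN N) (YN N) a b i k (m k) : ℝ) : ℂ)) *
        (χ ((∏ k, m k : ℕ) : ZMod q) * gj B N v (∏ k, m k))‖ ≤
      8 * (N : ℝ) ^ 2 * Real.log N ^ (2 * Rm) / Real.log N ^ AF +
        (N : ℝ) ^ (-(1 / 200) : ℝ) * (C * (N : ℝ) ^ 2 * (N : ℝ) ^ (1 / 800 : ℝ) * Real.log N ^ (2 * Rm)) +
        (N : ℝ) ^ 2 / Real.log N ^ A' := by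
  classical
  have hN0 : (8 : ℝ) ≤ N := by exact_mod_cast hN
  have hNpos : (0 : ℝ) < N := by linarith
  have hLpos : 0 < Real.log N := by linarith
  set S := Fintype.piFinset (fun k : Fin (r + 2 * i) => Ico (2 ^ e k) (2 ^ (e k + 1))) with hS
  set c : Fin (r + 2 * i) → ℕ → ℂ := fun k m => ((uu N (zN N) (YN N) a b i k m : ℝ) : ℂ) * χ m with hc
  have hSm : ∀ m ∈ S, ∀ k, 2 ^ e k ≤ m k ∧ m k < 2 ^ (e k + 1) := by
    intro m hm k
    rw [hS, Fintype.mem_piFinset] at hm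
    exact mem_Ico.1 (hm k)
  have hS1 : ∀ m ∈ S, ∀ k, 1 ≤ m k := fun m hm k => Nat.one_le_two_pow.trans (hSm m hm k).1
  have hrew : ∑ m ∈ S, (∏ k, ((uu N (zN N) (YN N) a b i k (m k) : ℝ) : ℂ)) *
        (χ ((∏ k, m k : ℕ) : ZMod q) * gj B N v (∏ k, m k)) =
      ∑ m ∈ S, (∏ k, c k (m k)) * gj B N v (∏ k, m k) := by
    refine sum_congr rfl fun m _ => ?_
    rw [← mul_assoc]
    congr 1
    rw [hc, prod_mul_distrib]
    congr 1
    push_cast
    rw [map_prod]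
  have hcn : ∀ m ∈ S, ‖∏ k, c k (m k)‖ ≤ Real.log N ^ (2 * Rm) := by
    intro m hm
    rw [norm_prod]
    have h1 : ∀ k ∈ (univ : Finset (Fin (r + 2 * i))), ‖c k (m k)‖ ≤ Real.log N ^ 2 := by
      intro k _
      rw [hc]
      show ‖((uu N (zN N) (YN N) a b i k (m k) : ℝ) : ℂ) * χ (m k)‖ ≤ _
      rw [norm_mul, Complex.norm_real, Real.norm_eq_abs]
      have h2 := SML_uu N (zN N) (YN N) a b i k (m k)
      have h3 : ‖χ (m k)‖ ≤ 1 := DirichletCharacter.norm_le_one χ _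
      have h4 : m k ≤ 2 * N ^ 2 := by
        have h5 := (hSm m hm k).2
        have h6 : 2 ^ (e k + 1) ≤ 2 ^ K := Nat.pow_le_pow_right (by norm_num) (he k)
        omega
      have h5 : Real.log (m k) ≤ Real.log (2 * (N : ℝ) ^ 2) := by
        refine Real.log_le_log (by exact_mod_cast hS1 m hm k) ?_
        exact_mod_cast h4
      have h6 : 0 ≤ Real.log (m k) := Real.log_natCast_nonneg _
      calc |uu N (zN N) (YN N) a b i k (m k)| * ‖χ (m k)‖ ≤ (1 + Real.log (m k)) * 1 :=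
            mul_le_mul h2 h3 (norm_nonneg _) (by linarith)
        _ ≤ _ := by linarith
    calc ∏ k, ‖c k (m k)‖ ≤ ∏ _k : Fin (r + 2 * i), Real.log N ^ 2 :=
          prod_le_prod (fun k _ => norm_nonneg _) h1
      _ = Real.log N ^ (2 * (r + 2 * i)) := by
          rw [prod_const, card_univ, Fintype.card_fin, ← pow_mul]
      _ ≤ _ := pow_le_pow_right₀ hL (by omega)
  have hScard : (#S : ℝ) ≤ 8 * (N : ℝ) ^ 3 := by
    have h1 : #S = ∏ k, 2 ^ e k := by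
      rw [hS, Fintype.card_piFinset]
      refine prod_congr rfl fun k _ => ?_
      rw [Nat.card_Ico, pow_succ]
      omega
    rw [h1]
    exact_mod_cast he8
  have h := hF (Fin (r + 2 * i) → ℕ) S (fun m => ∏ k, m k) (fun m => ∏ k, c k (m k))
    (fun m hm => Nat.succ_le_of_lt (prod_pos fun k _ => hS1 m hm k))
  rw [hrew]
  refine h.trans ?_
  have hT1 : (∑ m ∈ S, ‖∏ k, c k (m k)‖) / (N * Real.log N ^ AF) ≤
      8 * (N : ℝ) ^ 2 * Real.log N ^ (2 * Rm) / Real.log N ^ AF := by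
    have h1 : ∑ m ∈ S, ‖∏ k, c k (m k)‖ ≤ 8 * (N : ℝ) ^ 3 * Real.log N ^ (2 * Rm) := by
      calc ∑ m ∈ S, ‖∏ k, c k (m k)‖ ≤ ∑ _m ∈ S, Real.log N ^ (2 * Rm) := sum_le_sum hcn
        _ = #S * Real.log N ^ (2 * Rm) := by rw [sum_const, nsmul_eq_mul]
        _ ≤ _ := mul_le_mul_of_nonneg_right hScard (by positivity)
    rw [div_le_div_iff₀ (by positivity) (by positivity)]
    calc (∑ m ∈ S, ‖∏ k, c k (m k)‖) * Real.log N ^ AF ≤
          8 * (N : ℝ) ^ 3 * Real.log N ^ (2 * Rm) * Real.log N ^ AF :=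
          mul_le_mul_of_nonneg_right h1 (by positivity)
      _ = 8 * (N : ℝ) ^ 2 * Real.log N ^ (2 * Rm) * (N * Real.log N ^ AF) := by ring
  have hT2 : ∑ m ∈ S with |Real.log ((∏ k, m k : ℕ) : ℝ) - v| ≤ 2 / N, ‖∏ k, c k (m k)‖ ≤
      C * (N : ℝ) ^ 2 * (N : ℝ) ^ (1 / 800 : ℝ) * Real.log N ^ (2 * Rm) := by
    calc ∑ m ∈ S with |Real.log ((∏ k, m k : ℕ) : ℝ) - v| ≤ 2 / N, ‖∏ k, c k (m k)‖
        ≤ ∑ _m ∈ S with |Real.log ((∏ k, _m k : ℕ) : ℝ) - v| ≤ 2 / N, Real.log N ^ (2 * Rm) :=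
          sum_le_sum fun m hm => hcn m (mem_filter.1 hm).1
      _ = #(S.filter fun m => |Real.log ((∏ k, m k : ℕ) : ℝ) - v| ≤ 2 / N) * Real.log N ^ (2 * Rm) := by
          rw [sum_const, nsmul_eq_mul]
      _ ≤ _ := mul_le_mul_of_nonneg_right (hcount S hS1) (by positivity)
  have hT3 : 1 / (N : ℝ) * ∫ t in Tset (1 / 200) B₁ N,
      ‖∑ m ∈ S, (∏ k, c k (m k)) * nit t ((∏ k, m k : ℕ) : ℝ)‖ * min 1 (8 * (N : ℝ) ^ 2 / t ^ 2) ≤
      (N : ℝ) ^ 2 / Real.log N ^ A' := by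
    have h1 : ∀ t : ℝ, ‖∑ m ∈ S, (∏ k, c k (m k)) * nit t ((∏ k, m k : ℕ) : ℝ)‖ =
        ∏ k, ‖DPb (2 ^ e k) (c k) t‖ := by
      intro t
      rw [hS, SML_poly e c t, norm_prod]
    simp_rw [h1]
    calc 1 / (N : ℝ) * ∫ t in Tset (1 / 200) B₁ N,
          (∏ k, ‖DPb (2 ^ e k) (c k) t‖) * min 1 (8 * (N : ℝ) ^ 2 / t ^ 2) ≤
          1 / (N : ℝ) * ((N : ℝ) ^ 3 / Real.log N ^ A') := mul_le_mul_of_nonneg_left hI (by positivity)
      _ = _ := by field_simp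
  have hT2' := mul_le_mul_of_nonneg_left hT2 (Real.rpow_nonneg hNpos.le (-(1 / 200) : ℝ))
  exact add_le_add (add_le_add hT1 hT2') hT3

theorem SML (h1 : PRD_stmt) (h2 : FGB_stmt) (h3 : BLK_stmt) (h4 : G0B_stmt) : SML_stmt := by
  classical
  intro r a b hadr A Bq
  have hb : ∀ j, b j ≤ 3 / 2 := by
    rcases hadr with h | h
    · subst h; exact fun j => j.elim0
    · exact fun j => (h.2.1 j).2
  set Rm : ℕ := r + 14 with hRm
  obtain ⟨C, hC1, hcount⟩ := SML_count Rm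
  obtain ⟨B₁, N₁, hBLK⟩ := h3 r a b hadr (A + 2 * Rm + 2) Bq
  obtain ⟨B₀, hFGB⟩ := h2 (A + 4 * Rm + 2) B₁
  refine ⟨B₀, fun B hB => ?_⟩
  obtain ⟨N₂, hFGB⟩ := hFGB B hB
  obtain ⟨N₃, hG0⟩ := h4 B
  obtain ⟨N₄, hlogs⟩ := SML_log (A + 4 * Rm + 2) (3 / 800) (by norm_num)
  have hev : ∀ᶠ N : ℕ in Filter.atTop, 9 + C ≤ Real.log (N : ℝ) :=
    (Real.tendsto_log_atTop.comp tendsto_natCast_atTop_atTop).eventually_ge_atTop (9 + C)
  obtain ⟨N₅, hN₅⟩ := Filter.eventually_atTop.1 hev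
  refine ⟨max (max (max N₁ N₂) (max N₃ N₄)) (max N₅ 8), fun N hN v hv q hq hqB χ i hi => ?_⟩
  have hNN₁ : N₁ ≤ N := by omega
  have hNN₂ : N₂ ≤ N := by omega
  have hNN₃ : N₃ ≤ N := by omega
  have hNN₄ : N₄ ≤ N := by omega
  have hNN₅ : N₅ ≤ N := by omega
  have hN8 : 8 ≤ N := by omega
  have hN0 : (8 : ℝ) ≤ N := by exact_mod_cast hN8
  have hNpos : (0 : ℝ) < N := by linarith
  set L : ℝ := Real.log N with hL
  have hLbig : 9 + C ≤ L := hN₅ N hNN₅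
  have hL10 : 10 ≤ L := by linarith
  have hLpos : 0 < L := by linarith
  rw [mem_Icc] at hi
  have hRle : r + 2 * i ≤ Rm := by omega
  set K : ℕ := Nat.log 2 (N ^ 2) + 1 with hK
  have hN2 : N ^ 2 ≠ 0 := by positivity
  have hK1 : N ^ 2 < 2 ^ K := Nat.lt_pow_succ_log_self (by norm_num) _
  have hK2 : 2 ^ K ≤ 2 * N ^ 2 := by
    rw [hK, pow_succ, mul_comm]
    exact Nat.mul_le_mul_left 2 (Nat.pow_log_le_self 2 hN2)
  have hlog2 : Real.log 2 < 0.6931471808 := Real.log_two_lt_d9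
  have hlog2' : 0.6931471803 < Real.log 2 := Real.log_two_gt_d9
  have hl2N : Real.log (2 * (N : ℝ) ^ 2) = Real.log 2 + 2 * L := by
    rw [Real.log_mul (by norm_num) (by positivity), Real.log_pow]
    push_cast
    rfl
  have hlogN : 1 + Real.log (2 * (N : ℝ) ^ 2) ≤ L ^ 2 := by
    rw [hl2N]; nlinarith
  have hKL : (K : ℝ) ≤ L ^ 2 := by
    have h5 : (2 : ℝ) ^ K ≤ 2 * (N : ℝ) ^ 2 := by exact_mod_cast hK2
    have h6 : Real.log ((2 : ℝ) ^ K) ≤ Real.log (2 * (N : ℝ) ^ 2) := Real.log_le_log (by positivity) h5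
    rw [Real.log_pow, hl2N] at h6
    have h7 : (0 : ℝ) ≤ K := Nat.cast_nonneg K
    nlinarith
  -- vanishing of gj
  obtain ⟨-, hg2, -⟩ := hG0 N hNN₃ v
  have hLB : 1 / L ^ B ≤ 1 := by
    rw [div_le_one (by positivity)]
    exact one_le_pow₀ (by linarith)
  have hlog8 : Real.log 8 = 3 * Real.log 2 := by
    rw [show (8 : ℝ) = 2 ^ 3 by norm_num, Real.log_pow]; norm_num
  have hgbig : ∀ j : ℕ, 8 * N ^ 3 < j → gj B N v j = 0 := by
    intro j hj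
    have h5 : Real.log (8 * (N : ℝ) ^ 3) ≤ Real.log j := by
      refine Real.log_le_log (by positivity) ?_
      exact_mod_cast hj.le
    rw [Real.log_mul (by norm_num) (by positivity), Real.log_pow, hlog8] at h5
    push_cast at h5
    have h6 := (abs_le.1 hv).2
    have h7 : g0 B N v (Real.log j) = 0 := by
      refine hg2 _ (hLB.trans ?_)
      rw [le_abs]
      left
      linarith
    unfold gj
    rw [h7, Complex.ofReal_zero]
  have hgsmall : ∀ j : ℕ, 1 ≤ j → 16 * j < N ^ 3 → gj B N v j = 0 := by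
    intro j hj1 hj
    have hj0 : (0 : ℝ) < j := by exact_mod_cast hj1
    have h5 : Real.log (8 * (j : ℝ)) ≤ Real.log ((N : ℝ) ^ 3) := by
      refine Real.log_le_log (by positivity) ?_
      have h8 : 8 * j ≤ N ^ 3 := by omega
      exact_mod_cast h8
    rw [Real.log_mul (by norm_num) (by positivity), Real.log_pow, hlog8] at h5
    push_cast at h5
    have h6 := (abs_le.1 hv).1
    have h7 : g0 B N v (Real.log j) = 0 := by
      refine hg2 _ (hLB.trans ?_)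
      rw [le_abs]
      right
      linarith
    unfold gj
    rw [h7, Complex.ofReal_zero]
  -- change of the range
  have hrange : ∑ m ∈ Ioc 0 (64 * N ^ 3), (((∏ k, uu N (zN N) (YN N) a b i k) m : ℝ) : ℂ) * χ m * gj B N v m =
      ∑ m ∈ Ioc 0 (2 ^ (K * (r + 2 * i))), (((∏ k, uu N (zN N) (YN N) a b i k) m : ℝ) : ℂ) *
        (χ m * gj B N v m) := by
    have hz : ∀ m : ℕ, m ∉ Ioc 0 (8 * N ^ 3) → 0 < m →
        (((∏ k, uu N (zN N) (YN N) a b i k) m : ℝ) : ℂ) * χ m * gj B N v m = 0 := by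
      intro m hm hm0
      rw [mem_Ioc] at hm
      rw [hgbig m (by omega), mul_zero]
    have e1 : ∑ m ∈ Ioc 0 (8 * N ^ 3), (((∏ k, uu N (zN N) (YN N) a b i k) m : ℝ) : ℂ) * χ m * gj B N v m =
        ∑ m ∈ Ioc 0 (64 * N ^ 3), (((∏ k, uu N (zN N) (YN N) a b i k) m : ℝ) : ℂ) * χ m * gj B N v m := by
      refine sum_subset (fun m hm => ?_) (fun m hm hm2 => hz m hm2 (mem_Ioc.1 hm).1)
      rw [mem_Ioc] at hm ⊢
      omega
    have e2 : ∑ m ∈ Ioc 0 (8 * N ^ 3), (((∏ k, uu N (zN N) (YN N) a b i k) m : ℝ) : ℂ) * χ m * gj B N v m =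
        ∑ m ∈ Ioc 0 (2 ^ (K * (r + 2 * i))),
          (((∏ k, uu N (zN N) (YN N) a b i k) m : ℝ) : ℂ) * χ m * gj B N v m := by
      refine sum_subset (fun m hm => ?_) (fun m hm hm2 => hz m hm2 (mem_Ioc.1 hm).1)
      rw [mem_Ioc] at hm ⊢
      refine ⟨hm.1, hm.2.trans ?_⟩
      have h5 : 2 ^ (K * 2) ≤ 2 ^ (K * (r + 2 * i)) :=
        Nat.pow_le_pow_right (by norm_num) (Nat.mul_le_mul_left K (by omega))
      refine le_trans ?_ h5
      rw [pow_mul]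
      calc 8 * N ^ 3 ≤ N * N ^ 3 := Nat.mul_le_mul_right _ hN8
        _ = (N ^ 2) ^ 2 := by ring
        _ ≤ (2 ^ K) ^ 2 := Nat.pow_le_pow_left hK1.le 2
    rw [← e1, e2]
    exact sum_congr rfl fun m _ => mul_assoc _ _ _
  have hPRD := h1 (r + 2 * i) K (fun k => uu N (zN N) (YN N) a b i k)
    (fun k m hm => SML_supp N hN8 a b hb i k m (lt_of_lt_of_le hK1 hm)) (fun m => χ m * gj B N v m)
  rw [hrange, hPRD]
  set bd : ℝ := 8 * (N : ℝ) ^ 2 * L ^ (2 * Rm) / L ^ (A + 4 * Rm + 2) +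
    (N : ℝ) ^ (-(1 / 200) : ℝ) * (C * (N : ℝ) ^ 2 * (N : ℝ) ^ (1 / 800 : ℝ) * L ^ (2 * Rm)) +
    (N : ℝ) ^ 2 / L ^ (A + 2 * Rm + 2) with hbd
  have hbd0 : 0 ≤ bd := by positivity
  have hblock : ∀ e ∈ Fintype.piFinset (fun _ : Fin (r + 2 * i) => range K),
      ‖∑ m ∈ Fintype.piFinset (fun k : Fin (r + 2 * i) => Ico (2 ^ e k) (2 ^ (e k + 1))),
        (∏ k, ((uu N (zN N) (YN N) a b i k (m k) : ℝ) : ℂ)) *
          (χ ((∏ k, m k : ℕ) : ZMod q) * gj B N v (∏ k, m k))‖ ≤ bd := by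
    intro e he
    rw [Fintype.mem_piFinset] at he
    have heK : ∀ k, e k < K := fun k => mem_range.1 (he k)
    by_cases h8 : ∏ k, 2 ^ e k ≤ 8 * N ^ 3
    · by_cases h9 : N ^ 3 ≤ 2 ^ (r + 2 * i + 4) * ∏ k, 2 ^ e k
      · exact SML_one a b B₁ (A + 4 * Rm + 2) B (A + 2 * Rm + 2) Rm C N v q χ i K hRle hN8
          (by rw [← hL]; linarith) (fun S hS => hcount N hN8 v hv (r + 2 * i) hRle S hS) (by rw [← hL]; exact hlogN) hK2
          (hFGB N hNN₂ v) e heK h8 (hBLK N hNN₁ q hq hqB χ i (mem_Icc.2 hi) e h9 h8)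
      · rw [sum_eq_zero, norm_zero]
        · exact hbd0
        · intro m hm
          rw [Fintype.mem_piFinset] at hm
          have hm1 : ∀ k, 1 ≤ m k := fun k => Nat.one_le_two_pow.trans (mem_Ico.1 (hm k)).1
          have h10 : ∏ k, m k ≤ 2 ^ (r + 2 * i) * ∏ k, 2 ^ e k := by
            calc ∏ k, m k ≤ ∏ k : Fin (r + 2 * i), (2 * 2 ^ e k) := by
                  refine prod_le_prod' fun k _ => ?_
                  have := (mem_Ico.1 (hm k)).2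
                  rw [pow_succ] at this
                  omega
              _ = _ := by rw [prod_mul_distrib, prod_const, card_univ, Fintype.card_fin]
          rw [hgsmall _ (Nat.succ_le_of_lt (prod_pos fun k _ => hm1 k)), mul_zero, mul_zero]
          push Not at h9
          calc 16 * ∏ k, m k ≤ 16 * (2 ^ (r + 2 * i) * ∏ k, 2 ^ e k) := Nat.mul_le_mul_left 16 h10
            _ = 2 ^ (r + 2 * i + 4) * ∏ k, 2 ^ e k := by rw [pow_add]; ring
            _ < N ^ 3 := h9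
    · rw [sum_eq_zero, norm_zero]
      · exact hbd0
      · intro m hm
        rw [Fintype.mem_piFinset] at hm
        push Not at h8
        rw [hgbig, mul_zero, mul_zero]
        exact h8.trans_le (prod_le_prod' fun k _ => (mem_Ico.1 (hm k)).1)
  have hcardE : (#(Fintype.piFinset (fun _ : Fin (r + 2 * i) => range K)) : ℝ) ≤ L ^ (2 * Rm) := by
    rw [Fintype.card_piFinset, prod_const, card_univ, Fintype.card_fin, card_range]
    push_cast
    calc (K : ℝ) ^ (r + 2 * i) ≤ (L ^ 2) ^ (r + 2 * i) := pow_le_pow_left₀ (Nat.cast_nonneg K) hKL _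
      _ = L ^ (2 * (r + 2 * i)) := by rw [← pow_mul]
      _ ≤ _ := pow_le_pow_right₀ (by linarith) (by omega)
  calc _ ≤ ∑ e ∈ Fintype.piFinset (fun _ : Fin (r + 2 * i) => range K), bd :=
        (norm_sum_le _ _).trans (sum_le_sum hblock)
    _ = #(Fintype.piFinset (fun _ : Fin (r + 2 * i) => range K)) * bd := by rw [sum_const, nsmul_eq_mul]
    _ ≤ L ^ (2 * Rm) * bd := mul_le_mul_of_nonneg_right hcardE hbd0
    _ ≤ (N : ℝ) ^ 2 / L ^ A := by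
        have hs1 : L ^ (A + 4 * Rm + 2) ≤ (N : ℝ) ^ (3 / 800 : ℝ) := hlogs N hNN₄
        have hLR : 0 < L ^ (2 * Rm) := by positivity
        have t1 : L ^ (2 * Rm) * (8 * (N : ℝ) ^ 2 * L ^ (2 * Rm) / L ^ (A + 4 * Rm + 2)) =
            8 * ((N : ℝ) ^ 2 / L ^ (A + 2)) := by
          rw [show A + 4 * Rm + 2 = (2 * Rm) + (2 * Rm) + (A + 2) by ring, pow_add, pow_add]
          field_simp
        have t3 : L ^ (2 * Rm) * ((N : ℝ) ^ 2 / L ^ (A + 2 * Rm + 2)) = (N : ℝ) ^ 2 / L ^ (A + 2) := by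
          rw [show A + 2 * Rm + 2 = (2 * Rm) + (A + 2) by ring, pow_add]
          field_simp
        have t2 : L ^ (2 * Rm) * ((N : ℝ) ^ (-(1 / 200) : ℝ) *
            (C * (N : ℝ) ^ 2 * (N : ℝ) ^ (1 / 800 : ℝ) * L ^ (2 * Rm))) ≤ C * ((N : ℝ) ^ 2 / L ^ (A + 2)) := by
          have h5 : (N : ℝ) ^ (-(1 / 200) : ℝ) * (N : ℝ) ^ (1 / 800 : ℝ) = ((N : ℝ) ^ (3 / 800 : ℝ))⁻¹ := by
            rw [← Real.rpow_add hNpos, ← Real.rpow_neg hNpos.le]
            norm_num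
          have h6 : ((N : ℝ) ^ (3 / 800 : ℝ))⁻¹ ≤ (L ^ (A + 4 * Rm + 2))⁻¹ :=
            inv_anti₀ (by positivity) hs1
          calc L ^ (2 * Rm) * ((N : ℝ) ^ (-(1 / 200) : ℝ) *
                (C * (N : ℝ) ^ 2 * (N : ℝ) ^ (1 / 800 : ℝ) * L ^ (2 * Rm))) =
                (C * (N : ℝ) ^ 2 * (L ^ (2 * Rm) * L ^ (2 * Rm))) *
                  ((N : ℝ) ^ (-(1 / 200) : ℝ) * (N : ℝ) ^ (1 / 800 : ℝ)) := by ring
            _ ≤ (C * (N : ℝ) ^ 2 * (L ^ (2 * Rm) * L ^ (2 * Rm))) * (L ^ (A + 4 * Rm + 2))⁻¹ := by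
                rw [h5]
                exact mul_le_mul_of_nonneg_left h6 (by positivity)
            _ = C * ((N : ℝ) ^ 2 / L ^ (A + 2)) := by
                rw [show A + 4 * Rm + 2 = (2 * Rm) + (2 * Rm) + (A + 2) by ring, pow_add, pow_add]
                field_simp
        have t4 : (9 + C) * ((N : ℝ) ^ 2 / L ^ (A + 2)) ≤ (N : ℝ) ^ 2 / L ^ A := by
          rw [pow_add, ← mul_div_assoc, div_le_div_iff₀ (by positivity) (by positivity)]
          have h7 : 9 + C ≤ L ^ 2 := by nlinarith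
          calc (9 + C) * (N : ℝ) ^ 2 * L ^ A ≤ L ^ 2 * (N : ℝ) ^ 2 * L ^ A := by gcongr
            _ = _ := by ring
        calc L ^ (2 * Rm) * bd = L ^ (2 * Rm) * (8 * (N : ℝ) ^ 2 * L ^ (2 * Rm) / L ^ (A + 4 * Rm + 2)) +
              L ^ (2 * Rm) * ((N : ℝ) ^ (-(1 / 200) : ℝ) *
                (C * (N : ℝ) ^ 2 * (N : ℝ) ^ (1 / 800 : ℝ) * L ^ (2 * Rm))) +
              L ^ (2 * Rm) * ((N : ℝ) ^ 2 / L ^ (A + 2 * Rm + 2)) := by rw [hbd]; ring
          _ ≤ 8 * ((N : ℝ) ^ 2 / L ^ (A + 2)) + C * ((N : ℝ) ^ 2 / L ^ (A + 2)) + (N : ℝ) ^ 2 / L ^ (A + 2) := by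
              rw [t1, t3]; linarith
          _ = (9 + C) * ((N : ℝ) ^ 2 / L ^ (A + 2)) := by ring
          _ ≤ _ := t4

end Pool.Agent.SK
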