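import Pool.Agent.helper24.SK.SpecE
import Pool.Agent.helper17.CH.All
import Pool.Agent.helper63.AM.KL
import Pool.Agent.helper88.SK.TRB
import Pool.Agent.helper68.SK.G0B
import Pool.Agent.helper98.SK.THB
import Pool.Agent.helper37.SK.TRC
import Pool.Agent.helper41.SK.FGB
import Pool.Agent.helper68.SK.ABL
import Pool.Agent.helper89.SK.TAM
import Pool.Agent.helper40.SK.TI1
import Pool.Agent.helper76.SK.TI
import Pool.Agent.helper18.SK.HB7
import Pool.Agent.helper68.SK.TLD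
import Pool.Agent.helper31.SK.TLB
import Pool.Agent.helper87.SK.DEC
import Pool.Agent.helper52.SK.PRD
import Pool.Agent.helper37.SK.MVP
import Pool.Agent.helper68.SK.CS3
import Pool.Agent.helper47.SK.GRP
import Pool.Agent.helper71.SK.BL5
import Pool.Agent.helper22.SK.BL4
import Pool.Agent.helper98.SK.SPK
import Pool.Agent.helper71.SK.VD1
import Pool.Agent.helper34.SK.VDK
import Pool.Agent.helper2.SK.BLK
import Pool.Agent.helper24.SK.SML
import Pool.Agent.helper79.SK.SPT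
import Pool.Agent.helper98.SK.PSR
import Pool.Agent.helper47.SK.WID
import Pool.Agent.helper98.SK.SCN
import Pool.Agent.helper17.SK.WNF
import Pool.Agent.helper11.SK.PNW
import Pool.Agent.helper37.SK.GCD
import Pool.Agent.helper31.SK.SCK
import Pool.Agent.helper49.SK.CMW
import Pool.Agent.helper75.SK.E3
import Pool.Agent.helper87.SK.ETR
import Pool.Agent.helper72.SK.SLR
import Pool.Agent.helper81.SK.ENW
import Pool.Agent.helper78.SK.EWD
import Pool.Agent.helper68.SK.EGC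
import Pool.Agent.helper87.SK.ESC

/-!
# Project sk (MP_5628fe_nt): small conductors in every window, assembly

Closed theorems for the interface of project EC: `SCL_all`, `SCT_all`, `SCE_all`, `PNW_all`, `CMP_all`.
-/

set_option autoImplicit false

namespace Pool.Agent.SK

open Finset ArithmeticFunction

theorem sk_TRB : TRB_stmt := TRB
theorem sk_G0B : G0B_stmt := G0B sk_TRB
theorem sk_THB : THB_stmt := THB sk_TRB
theorem sk_TRC : TRC_stmt := TRC sk_TRB sk_THB
theorem sk_FGB : FGB_stmt := FGB sk_TRB sk_THB sk_TRC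
theorem sk_ABL : ABL_stmt := ABL
theorem sk_TAM : TAM_stmt := TAM
theorem sk_TI1 : TI1_stmt := TI1 sk_TRB sk_G0B sk_ABL
theorem sk_TI : TI_stmt := TI sk_TI1 sk_TAM
theorem sk_TLD : TLD_stmt := TLD
theorem sk_TLB : TLB_stmt := TLB sk_TLD
theorem sk_DEC : DEC_stmt := DEC HB7 sk_TLD
theorem sk_MVP : MVP_stmt := MVP sk_TAM CH.All.MVT_all
theorem sk_BL5 : BL5_stmt := BL5 GRP CS3 sk_MVP
theorem sk_BL4 : BL4_stmt := BL4 sk_MVP
theorem sk_SPK : SPK_stmt := SPK sk_ABL CH.All.SUP_all CH.All.VP_all CH.All.CHS_all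
theorem sk_VD1 : VD1_stmt := VD1 AM.KL
theorem sk_VDK : VDK_stmt := VDK sk_VD1 sk_ABL
theorem sk_BLK : BLK_stmt := BLK sk_BL5 sk_BL4 sk_SPK sk_VDK
theorem sk_SML : SML_stmt := SML PRD sk_FGB sk_BLK sk_G0B
theorem sk_SPT : SPT_stmt := SPT sk_DEC sk_SML sk_TI
theorem sk_PSR : PSR_stmt := PSR
theorem sk_WID : WID_stmt := WID sk_TRB sk_ABL sk_TLD sk_PSR
theorem sk_SCN : SCN_stmt := SCN sk_SPT sk_WID
theorem sk_WNF : WNF_stmt := WNF sk_TRB
theorem sk_PNW : PNW_stmt := PNW sk_SPT sk_TI1 sk_PSR sk_ABL sk_TRB sk_WNF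
theorem sk_GCD : GCD_stmt := GCD sk_TLD sk_TLB
theorem sk_SCK : SCK_stmt := SCK sk_SCN sk_GCD sk_WNF
theorem sk_CMW : CMW_stmt := CMW sk_SPT sk_WNF sk_TRB sk_TLB
theorem sk_E3 : E3_stmt := E3 sk_FGB CS3 sk_G0B sk_TAM CH.All.MVT_all
theorem sk_ETR : ETR_stmt := ETR
theorem sk_SLR : SLR_stmt := SLR CH.All.VP_all
theorem sk_ENW : ENW_stmt := ENW sk_ETR sk_SLR sk_E3 sk_G0B
theorem sk_EWD : EWD_stmt := EWD sk_ETR sk_PSR sk_ABL sk_TRB
theorem sk_ESC : ESC_stmt := ESC sk_ENW sk_EWD EGC sk_WNF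

/-- `TL` without prime variables is `Λ` -/
theorem TL_zero (N : ℕ) (a b : Fin 0 → ℝ) (m : ℕ) : Pool.Agent.EC.TL N a b m = vonMangoldt m := by
  classical
  unfold Pool.Agent.EC.TL
  rw [Finset.sum_filter]
  simp

/-- **SCL**: primes, characters of small conductor, every window -/
theorem SCL_all : Pool.Agent.EC.SCL_stmt := by
  intro A B
  obtain ⟨N₀, h⟩ := sk_SCK 0 (fun _ => 0) (fun _ => 0) (Or.inl rfl) A B
  refine ⟨N₀, fun N hN M a R hM hM2 ha hR hR2 => ?_⟩
  have h2 := h N hN M a R hM hM2 ha hR hR2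
  simpa only [TL_zero] using h2

/-- **SCT**: products -/
theorem SCT_all : Pool.Agent.EC.SCT_stmt := fun r a b hab A B => sk_SCK r a b (Or.inr hab) A B

/-- **SCE**: the edge function -/
theorem SCE_all : Pool.Agent.EC.SCE_stmt := sk_ESC

/-- **PNW**: the prime number theorem in every window -/
theorem PNW_all : Pool.Agent.EC.PNW_stmt := sk_PNW

/-- **CMP**: comparison with wide windows -/
theorem CMP_all : Pool.Agent.EC.CMP_stmt := sk_CMW

end Pool.Agent.SK
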