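import Pool.Agent.helper26.EC.Defs
import Pool.Agent.helper68.AM.Spec
import Pool.Agent.helper85.BVP.Tau

/-!
# Project sk (MP_5628fe_nt): characters of small conductor in EVERY window between cubes

Architect helper24. Part of the project of helper26, helper62, helper24: a prime `p` and `p + 6` with at most four
prime factors between all large consecutive cubes (`Pool/Agent/helper26/EC/Defs.lean`).

`L = log N`. Window `Win N = (N^3, (N+1)^3]`, `|v - 3 log N| ≤ 1`. `g0 B N v` is the narrow triangle (half width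
`1/N`) minus `L^B/N` times the wide triangle (half width `1/L^B`). Result: for `T = TL N a b` (`r = 0`: `T = Λ`) and
every character `χ` modulo `q ≤ L^Bq` the sum of `T(m) χ(m) g0(log m)` is `≤ N²/L^A` (SPT). The wide triangle is
treated by the Siegel-Walfisz theorem (WID, WPN), so the sums over the window of `N` are known (SCN, PNW, SCK, CMW).

Proof of SPT. Heath-Brown's identity of order 7 (HB7): Möbius variables `≤ zN N ≤ 4 N^(3/7)`, smooth variables. A smooth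
variable `> YN N = ⌊N^(101/100)⌋`: type I, elementary (TI). Otherwise all variables `m_1, ..., m_R` (`R ≤ r + 14`, product
`≈ N³`) are bounded; dyadic blocks `[M_i, 2 M_i)` (PRD), Fourier transform (FGB), and the integral of the product of the
polynomials over `L^B₁ ≤ |t| ≤ N^(101/100)`: at least five blocks with `M_i ≥ N^η`: BL5 (two groups of length `≥ c N`,
mean values, and the sup bound SPK for the fifth longest variable); at most four: then `r = 0`, the longest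
variable is smooth of length `≥ N^(0.74)` and the van der Corput bound VDK saves a power of `N` (BL4).

RULES. File `Pool/Agent/<seat>/SK/XX.lean`, `import Pool.Agent.helper24.SK.Spec`, `namespace Pool.Agent.SK`, the `open`
lines of this file, `theorem XX (h1 : YY_stmt) ... : XX_stmt`: hypotheses may be any other statement of this file or of
CH.SpecV, CH.SpecW (no circles; those named in the docstring are enough), the CH statements used are proved, they may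
also be cited. Auxiliary lemmas are prefixed `XX_`, private where possible. No `sorry`, no `native_decide`, no
`convert`/`congr!`, no double quotes. Never change this file; a doubt about a statement: tell helper24 at once.
-/

set_option autoImplicit false

namespace Pool.Agent.SK

open Finset ArithmeticFunction MeasureTheory
open Pool.Agent.CH (nit DPb Win Tset ph)
open Pool.Agent.EC (tri vN fN XN TL AdT)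
open Pool.Agent.helper85.BVP (tau)
open GD (ks)

/-! ## Definitions -/

/-- the triangle of centre `v` and half width `δ`; `tri v δ j = tr0 v δ (log j)` by definition -/
noncomputable def tr0 (v δ x : ℝ) : ℝ := max 0 (1 - |x - v| / δ)

/-- narrow triangle minus wide triangle -/
noncomputable def g0 (B N : ℕ) (v x : ℝ) : ℝ :=
  tr0 v (1 / (N : ℝ)) x - Real.log N ^ B / N * tr0 v (1 / Real.log N ^ B) x

/-- the same on the integers -/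
noncomputable def gj (B N : ℕ) (v : ℝ) (j : ℕ) : ℂ := ((g0 B N v (Real.log j) : ℝ) : ℂ)

/-- Fourier transform of the centred triangle -/
noncomputable def Th (δ t : ℝ) : ℂ :=
  ∫ x : ℝ, ((tr0 0 δ x : ℝ) : ℂ) * Complex.exp (((-(t * x) : ℝ) : ℂ) * Complex.I)

/-- triangle convolved with the Gaussian density of standard deviation `s` -/
noncomputable def trc (v δ s x : ℝ) : ℝ := ∫ w : ℝ, tr0 v δ w * ph s (x - w)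

/-- `max 0 (min 1 x)` -/
noncomputable def clp (x : ℝ) : ℝ := max 0 (min 1 x)

/-- the primes of `[a, b)` -/
noncomputable def cel (a b : ℝ) : ArithmeticFunction ℝ :=
  ⟨fun p => if p.Prime ∧ a ≤ (p : ℝ) ∧ (p : ℝ) < b then 1 else 0, by simp [Nat.not_prime_zero]⟩

/-- the Möbius function cut at `z` -/
noncomputable def muz (z : ℕ) : ArithmeticFunction ℝ :=
  ⟨fun n => if n ≤ z then ((moebius n : ℤ) : ℝ) else 0, by simp⟩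

/-- `(log n)^h` for `1 ≤ n ≤ X` -/
noncomputable def sml (X h : ℕ) : ArithmeticFunction ℝ :=
  ⟨fun n => if 1 ≤ n ∧ n ≤ X then Real.log n ^ h else 0, by simp⟩

/-- `(log n)^h` for `n > X` -/
noncomputable def bgf (X h : ℕ) : ArithmeticFunction ℝ :=
  ⟨fun n => if X < n then Real.log n ^ h else 0, by simp⟩

/-- cut of the Möbius variables; `64 N³ ≤ zN^7`, `zN ≤ 4 N^(3/7)` -/
noncomputable def zN (N : ℕ) : ℕ := ⌊4 * (N : ℝ) ^ (3 / 7 : ℝ)⌋₊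

/-- cut of the smooth variables -/
noncomputable def YN (N : ℕ) : ℕ := ⌊(N : ℝ) ^ (101 / 100 : ℝ)⌋₊

/-- the `r + 2 i` factors of the `i`-th term of Heath-Brown's identity: `r` prime variables, `i` Möbius variables,
`i - 1` variables with weight `1`, one variable with weight `log` -/
noncomputable def uu {r : ℕ} (N z X : ℕ) (a b : Fin r → ℝ) (i : ℕ) (k : Fin (r + 2 * i)) : ArithmeticFunction ℝ :=
  if h : (k : ℕ) < r then cel ((N : ℝ) ^ a ⟨k, h⟩) ((N : ℝ) ^ b ⟨k, h⟩)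
  else if (k : ℕ) < r + i then muz z
  else if (k : ℕ) + 1 < r + 2 * i then sml X 0 else sml X 1

/-- admissible: no prime variable at all (`TL = Λ`), or `AdT` -/
def Adr {r : ℕ} (a b : Fin r → ℝ) : Prop := r = 0 ∨ AdT a b

/-! ## Part A: the triangles and the Fourier transform -/

/-- **TRB** (short, medium). uses: nothing. Basic facts. (7) `clp` is monotone with values in `[0, 1]` (obvious).
Proof. `max`, `abs`; the integrals over `[v-δ, v+δ]`: split at `v`; `∫ |x-v| tr0 ≤ δ ∫ tr0 = δ²`. (6): four cases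
`x ≤ v-δ`, `x ≤ v`, `x ≤ v+δ`, `v+δ ≤ x`. -/
def TRB_stmt : Prop := ∀ v δ : ℝ, 0 < δ →
  (∀ x, 0 ≤ tr0 v δ x ∧ tr0 v δ x ≤ 1) ∧ (∀ x, δ ≤ |x - v| → tr0 v δ x = 0) ∧
  (∀ x y, |tr0 v δ x - tr0 v δ y| ≤ |x - y| / δ) ∧ Integrable (tr0 v δ) ∧ (∫ x, tr0 v δ x = δ) ∧
  (∀ x, tr0 v δ x = clp ((x - v) / δ + 1) - clp ((x - v) / δ)) ∧
  Integrable (fun x => tr0 v δ x * |x - v|) ∧ ∫ x, tr0 v δ x * |x - v| ≤ δ ^ 2

/-- **G0B** (short). uses: TRB_stmt. `1/N ≤ 1/L^B` and `L ≥ 1` for large `N`; `∫ |g0| |x-v| ≤ 1/N² + (L^B/N)(1/L^B)²`. -/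
def G0B_stmt : Prop := ∀ B : ℕ, ∃ N₀ : ℕ, ∀ N : ℕ, N₀ ≤ N → ∀ v : ℝ,
  (∀ x, |g0 B N v x| ≤ 2) ∧ (∀ x, 1 / Real.log N ^ B ≤ |x - v| → g0 B N v x = 0) ∧
  Continuous (g0 B N v) ∧ Integrable (g0 B N v) ∧ (∫ x, g0 B N v x = 0) ∧
  (∫ x, |g0 B N v x| ≤ 2 / N) ∧ Integrable (fun x => |g0 B N v x| * |x - v|) ∧
  ∫ x, |g0 B N v x| * |x - v| ≤ 2 / (N * Real.log N ^ B)

/-- **THB** (medium). uses: TRB_stmt. Proof. `‖Th δ t‖ ≤ ∫ tr0 = δ`; `‖Th δ t - δ‖ ≤ ∫ tr0 |t x| ≤ δ² |t|`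
(`|e^(iy) - 1| ≤ |y|`). For `t ≠ 0`: the function is even, `Th δ t = 2 ∫_0^δ (1 - x/δ) cos(t x) dx =
2 (1 - cos(δ t))/(δ t²)`; primitive: `(1 - x/δ) sin(t x)/t - cos(t x)/(δ t²)`. Continuity: dominated convergence
(or from the Lipschitz bound `‖Th δ t - Th δ t'‖ ≤ δ² |t - t'|`). -/
def THB_stmt : Prop := ∀ δ : ℝ, 0 < δ → (∀ t, ‖Th δ t‖ ≤ δ) ∧ (∀ t, t ≠ 0 → ‖Th δ t‖ ≤ 4 / (δ * t ^ 2)) ∧
  (∀ t, ‖Th δ t - (δ : ℂ)‖ ≤ δ ^ 2 * |t|) ∧ Continuous (Th δ)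

/-- **TRC** (medium). uses: TRB_stmt, THB_stmt. Proof. (1) `∫ ph s = 1`, `∫ |u| ph s u du ≤ s` (Cauchy-Schwarz with the
second moment, or the explicit value `s √(2/π)`), Lipschitz. (2) for `|x - v| ≥ δ + ρ` only `|x - w| ≥ ρ` count:
`∫_{|u| ≥ ρ} ph s ≤ exp(-ρ²/(4s²)) ∫ exp(-u²/(4s²))/(s √(2π)) du = √2 exp(-ρ²/(4s²))`. (3) `ph s u = (1/2π) ∫
exp(-s²t²/2) exp(itu) dt` (Mathlib: `fourierIntegral_gaussian` or `integral_cexp_quadratic`), Fubini,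
`∫ tr0 v δ w exp(-itw) dw = exp(-itv) Th δ t`. Compare CCB, HP of CH (helper23/CH/WN, helper ../CH/CCB). -/
def TRC_stmt : Prop := ∀ v δ s x : ℝ, 0 < δ → 0 < s →
  |tr0 v δ x - trc v δ s x| ≤ s / δ ∧
  (∀ ρ : ℝ, 0 < ρ → δ + ρ ≤ |x - v| → |trc v δ s x| ≤ 2 * Real.exp (-(ρ ^ 2 / (4 * s ^ 2)))) ∧
  ((trc v δ s x : ℝ) : ℂ) = 1 / (2 * Real.pi) * ∫ t : ℝ, ((Real.exp (-(s ^ 2 * t ^ 2 / 2)) : ℝ) : ℂ) * Th δ t *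
    Complex.exp (((t * (x - v) : ℝ) : ℂ) * Complex.I)

/-- **FGB** (medium, long). uses: TRB_stmt, THB_stmt, TRC_stmt. Fourier bound for a finite sum.
Proof. `δ = 1/N`, `δ' = 1/L^B`, `σ = N^(-1-1/200)`, `Φ = ∑ ‖f w‖`, `F(t) = ∑ f w nit t (x w)`. Replace both triangles by
their convolutions `trc · · σ`. Errors: narrow, for `|log x_w - v| ≤ 2/N`: `≤ σ N = N^(-1/200)`; for `|log x_w - v| > 2/N`:
`tr0 = 0` and `|trc| ≤ 2 exp(-N^(1/100)/4)` (`ρ = 1/N`); wide: `(L^B/N) σ L^B ≤ 1/(8 N L^A)`. The smoothed function at `log x`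
is `(1/2π) ∫ m(t) e^(it(log x - v)) dt`, `m(t) = e^(-σ²t²/2) (Th δ t - (δ/δ') Th δ' t)`. (i) `|t| ≤ L^B₁`: `‖m‖ ≤ δ(δ+δ')|t| ≤
(2/N) L^(B₁-B)`, integral `≤ (4/N) L^(2B₁-B)`, fine for `B ≥ B₀ = 2 B₁ + A + 2`. (ii) on `Tset (1/200) B₁ N`: `‖m‖ ≤ min(2/N,
4N/t² + (L^B/N)(4 L^B/t²)) ≤ min(2/N, 8N/t²)` and `1/(2π)`. (iii) `|t| ≥ N^(1+1/100)`: `‖m‖ ≤ (2/N) e^(-σ²t²/2)`,
`∫ ≤ (2/N) e^(-N^(1/100)/4) √(4π)/σ`. -/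
def FGB_stmt : Prop := ∀ A B₁ : ℕ, ∃ B₀ : ℕ, ∀ B : ℕ, B₀ ≤ B → ∃ N₀ : ℕ, ∀ N : ℕ, N₀ ≤ N → ∀ v : ℝ,
  ∀ (ι : Type) (S : Finset ι) (x : ι → ℕ) (f : ι → ℂ), (∀ w ∈ S, 1 ≤ x w) →
  ‖∑ w ∈ S, f w * gj B N v (x w)‖ ≤ (∑ w ∈ S, ‖f w‖) / (N * Real.log N ^ A) +
    (N : ℝ) ^ (-(1 / 200) : ℝ) * (∑ w ∈ S with |Real.log (x w : ℝ) - v| ≤ 2 / N, ‖f w‖) +
    1 / (N : ℝ) * ∫ t in Tset (1 / 200) B₁ N, ‖∑ w ∈ S, f w * nit t (x w : ℝ)‖ * min 1 (8 * (N : ℝ) ^ 2 / t ^ 2)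

/-! ## Part B: elementary tools -/

/-- **ABL** (short, medium). uses: nothing. Abel's inequality. Proof. Summation by parts with `C u = ∑_{a < n ≤ u} c n`:
`∑ = C b R b - ∑_{a < n < b} C n (R (n+1) - R n)`, so `≤ K R b + K (R b - R (a+1))`. -/
def ABL_stmt : Prop := ∀ (c : ℕ → ℂ) (R : ℕ → ℝ) (a b : ℕ) (K : ℝ), (∀ n, 0 ≤ R n) →
  (∀ m n, a < m → m ≤ n → n ≤ b → R m ≤ R n) → (∀ u ≤ b, ‖∑ n ∈ Ioc a u, c n‖ ≤ K) →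
  ‖∑ n ∈ Ioc a b, c n * ((R n : ℝ) : ℂ)‖ ≤ 2 * K * R b

/-- **TAM** (short, medium). uses: nothing (lemmas of helper85/BVP/Tau.lean: `sum_divisors_swap`, `tau_mul_le`, `harm_le`).
Moments of the divisor function. Proof. Induction on `k`, both together. `k = 0`: `x` and `harm_le`. Step:
`tau n^(k+1)/n = ∑_{d ∣ n} tau n^k/n`, swap, `tau(dm) ≤ tau d tau m`: `≤ (∑ tau d^k/d)²`; and `∑ tau n^(k+1) ≤ ∑_d tau d^k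
∑_{m ≤ x/d} tau m^k ≤ ∑_d tau d^k (x/d) (1+log x)^(2^k) ≤ x (1+log x)^(2^k+2^k)`. -/
def TAM_stmt : Prop := ∀ k x : ℕ, ∑ n ∈ Ioc 0 x, tau n ^ k ≤ x * (1 + Real.log x) ^ (2 ^ k) ∧
  ∑ n ∈ Ioc 0 x, tau n ^ k / (n : ℝ) ≤ (1 + Real.log x) ^ (2 ^ k)

/-- **TI1** (medium, long). uses: TRB_stmt, G0B_stmt, ABL_stmt. Type I, inner sum over `n` for fixed `d`.
Proof. `U = 64 N³/d`. On `n ≤ U`, `(log n)^h g0(log(dn))` is a combination of four functions `(log n)^h clp(..)`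
(TRB (6)), nonnegative, nondecreasing and `≤ 5 L`, with coefficients `1, -1, -L^B/N, L^B/N`.
(1) support: `g0 ≠ 0` needs `d n < e^(v+1) ≤ e² N³`. (2) trivial bound: the `n` with `|log(dn) - v| ≤ 1/N` are at most
`C N²/d + 1`, those with `|log(dn) - v| ≤ 1/L^B` at most `C N³/(d L^B) + 1`; terms `≤ 5L` resp. `5 L · L^B/N`.
(3) `χ n = c n + ρ`, `ρ = φ(q)/q` if `χ = 1`, `ρ = 0` otherwise; `‖∑_{Y < n ≤ u} c n‖ ≤ 2q` (`c` has period `q` and mean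
value `0`); ABL: the `c`-part is `≤ 4 · 4q · 5L`. The `ρ`-part: each monotone function: sum minus integral over
`[Y, U]` is `≤ 5L`; `∫_Y^U (log u)^h g0(log(du)) du = (1/d) ∫ (w - log d)^h g0(w) e^w dw` over the whole line (the support is
in `[log(dY), log(dU)]` because `dY ≤ e^(v-1/L^B)`, `dU ≥ 64 N³ - d ≥ e^(v+1)`); with `φ(w) = (w - log d)^h e^w`,
`|φ(w) - φ(v)| ≤ C L N³ |w-v|` for `|w-v| ≤ 1`, `∫ g0 = 0` and G0B: `≤ C L N³ · 2/(N L^B)`. -/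
def TI1_stmt : Prop := ∃ C : ℝ, 0 < C ∧ ∀ B : ℕ, ∃ N₀ : ℕ, ∀ N : ℕ, N₀ ≤ N → ∀ v : ℝ, |v - 3 * Real.log N| ≤ 1 →
  ∀ q : ℕ, 1 ≤ q → ∀ (χ : DirichletCharacter ℂ q) (h d Y : ℕ), h ≤ 1 → 1 ≤ d → 1 ≤ Y →
  (8 * N ^ 3 ≤ d * Y → ∑ n ∈ Ioc Y (64 * N ^ 3 / d), χ n * (Real.log n : ℂ) ^ h * gj B N v (d * n) = 0) ∧
  ‖∑ n ∈ Ioc Y (64 * N ^ 3 / d), χ n * (Real.log n : ℂ) ^ h * gj B N v (d * n)‖ ≤
    C * Real.log N * ((N : ℝ) ^ 2 / d + 1) ∧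
  ((d : ℝ) * Y ≤ Real.exp (v - 1 / Real.log N ^ B) → d ≤ 32 * N ^ 3 →
    ‖∑ n ∈ Ioc Y (64 * N ^ 3 / d), χ n * (Real.log n : ℂ) ^ h * gj B N v (d * n)‖ ≤
      C * Real.log N * (q + (N : ℝ) ^ 2 / (d * Real.log N ^ B)))

/-- **TI** (medium, long). uses: TI1_stmt, TAM_stmt. Type I. Proof. `Y = YN N`. The sum is `∑_{d ≤ 64N³} E d χ d S_d` with the
inner sums of TI1 (`(E * bgf) m = ∑_{dn = m}`, `n > Y`, `dn ≤ 64 N³`). `S_d = 0` for `dY ≥ 8N³`. For `dY ≤ e^(v-1/L^B)`: TI1 (3);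
`∑_{d ≤ 8N³/Y} |E d| ≤ L^K (8N³/Y)(6L)^(2^K)`, `8N³/Y ≤ 16 N^(199/100)`, `q ≤ L^Bq`, and `∑ |E d|/d ≤ L^K (6L)^(2^K)`: total
`≤ N² L^(c-B) + N^(2-1/200)`, `c = c(K, Bq)`. For the `d` with `e^(v-1/L^B) < dY < e^(v+1/L^B)` (for larger `d` the sum is `0`
as well, support): TI1 (2) and Cauchy-Schwarz: `∑ |E d|/d ≤ (∑ 1/d)^(1/2) (∑ E d²/d)^(1/2)`, `∑ 1/d` over these `d` is
`≤ 5/L^B` (at most `(e^(1/L^B) - e^(-1/L^B)) e^v/Y + 1` integers, all `≥ e^(v-1)/Y`), `∑ E d²/d ≤ L^(2K) (6L)^(4^K)`: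
`≤ N² L^(c-B/2)`. -/
def TI_stmt : Prop := ∀ A Bq K : ℕ, ∃ B₀ : ℕ, ∀ B : ℕ, B₀ ≤ B → ∃ N₀ : ℕ, ∀ N : ℕ, N₀ ≤ N → ∀ v : ℝ,
  |v - 3 * Real.log N| ≤ 1 → ∀ q : ℕ, 1 ≤ q → (q : ℝ) ≤ Real.log N ^ Bq → ∀ χ : DirichletCharacter ℂ q,
  ∀ h ≤ 1, ∀ E : ArithmeticFunction ℝ,
  (∀ d : ℕ, 1 ≤ d → d ≤ 64 * N ^ 3 → |E d| ≤ Real.log N ^ K * tau d ^ K) →
  ‖∑ m ∈ Ioc 0 (64 * N ^ 3), (((E * bgf (YN N) h) m : ℝ) : ℂ) * χ m * gj B N v m‖ ≤ (N : ℝ) ^ 2 / Real.log N ^ A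

/-- **HB7** (medium). uses: nothing. Heath-Brown's identity of order 7, in the commutative ring of arithmetic functions.
Proof. `ε = 1 - ζ muz`: `ζ muz` equals `1` (the unit) on `n ≤ z` (`ζ μ = 1`), so `ε n = 0` for `n ≤ z`, hence `ε^7 n = 0` for
`n ≤ z^7` (a product of 7 numbers `> z` exceeds `z^7`), and `(Λ ε^7) n = 0` for `n ≤ z^7`. Binomial theorem:
`Λ ε^7 = Λ + ∑_{i=1}^7 C(7,i) (-1)^i Λ ζ^i muz^i`, `Λ ζ = log` (`vonMangoldt_mul_zeta`). -/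
def HB7_stmt : Prop := ∀ z n : ℕ, 1 ≤ n → n ≤ z ^ 7 →
  vonMangoldt n = ∑ i ∈ Icc 1 7, (-1 : ℝ) ^ (i + 1) * (Nat.choose 7 i : ℝ) *
    ((muz z) ^ i * ((zeta : ArithmeticFunction ℕ) : ArithmeticFunction ℝ) ^ (i - 1) * ArithmeticFunction.log) n

/-- **TLD** (short, medium). uses: nothing. `TL` as a Dirichlet product. Proof. `(∏ f_i) * Λ` evaluated at `m`: induction on
`r`, or: `((∏ i, f i) d) = ∑` over the tuples with product `d` (`f i` supported on primes), then `d` runs through the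
divisors of `m`. -/
def TLD_stmt : Prop := ∀ (r N : ℕ) (a b : Fin r → ℝ) (m : ℕ), 1 ≤ m →
  TL N a b m = ((∏ i, cel ((N : ℝ) ^ a i) ((N : ℝ) ^ b i)) * vonMangoldt) m

/-- **TLB** (medium). uses: TLD_stmt or nothing. Size of `TL`. Proof. `r = 0`: `Λ(m) ≤ log m ≤ 5L`. `AdT`: with `α = min a_i > 0`
the number of primes `p ≥ N^α` dividing `m ≤ 64 N³` is at most `4/α` (`N^(α k) ≤ 64 N³`), so at most `(4/α)^r` tuples count. -/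
def TLB_stmt : Prop := ∀ (r : ℕ) (a b : Fin r → ℝ), Adr a b → ∃ (C : ℝ) (N₀ : ℕ), 0 < C ∧ ∀ N : ℕ, N₀ ≤ N →
  ∀ m : ℕ, m ≤ 64 * N ^ 3 → 0 ≤ TL N a b m ∧ TL N a b m ≤ C * Real.log N

/-- **DEC** (medium, long). uses: HB7_stmt, TLD_stmt. Decomposition. Proof. By TLD and HB7 (`m ≤ 64N³ ≤ z^7`, only divisors of `m`
occur) `TL = (∏ cel) ∑_i c_i muz^i ζ^(i-1) log` on `m ≤ 64N³`. `ζ = s₀ + b₀`, `log = s₁ + b₁` with `s_h = sml X h`,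
`b_h = bgf X h`; `ζ^(i-1) log - s₀^(i-1) s₁ = ζ^(i-1) b₁ + (ζ^(i-1) - s₀^(i-1)) s₁` and `ζ^k - s₀^k = b₀ ∑_{j<k} ζ^j s₀^(k-1-j)`.
`(∏ cel) muz^i s₀^(i-1) s₁ = ∏ k, uu N z X a b i k` (`Fin.prod_univ_add` or induction). `E₁ = (∏ cel) ∑ c_i muz^i ζ^(i-1)`,
`E₀ = (∏ cel) ∑ c_i muz^i (∑_j ζ^j s₀^(i-2-j)) s₁`. Bounds: a product of `k` functions bounded by `ζ` is bounded by
`ζ^k n ≤ tau n^k`; the factor `s₁` gives `log n`. -/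
def DEC_stmt : Prop := ∀ r : ℕ, ∃ K : ℕ, ∀ (N z X : ℕ) (a b : Fin r → ℝ), 1 ≤ N → 64 * N ^ 3 ≤ z ^ 7 →
  ∃ E₀ E₁ : ArithmeticFunction ℝ,
    (∀ d : ℕ, 1 ≤ d → |E₀ d| ≤ K * (1 + Real.log d) * tau d ^ K ∧ |E₁ d| ≤ K * (1 + Real.log d) * tau d ^ K) ∧
    ∀ m : ℕ, 1 ≤ m → m ≤ 64 * N ^ 3 → TL N a b m =
      (∑ i ∈ Icc 1 7, (-1 : ℝ) ^ (i + 1) * (Nat.choose 7 i : ℝ) * (∏ k, uu N z X a b i k) m) +
        (E₀ * bgf X 0) m + (E₁ * bgf X 1) m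

/-- **PRD** (medium). uses: nothing. A product of arithmetic functions as a sum over tuples, in dyadic blocks.
Proof. `∑_b (∏ u_i)(b) G(b) = ∑_{m ∈ [1,2^K)^R} ∏ u_i(m_i) G(∏ m_i)`: induction on `R` (the support of `∏ u_i` is in
`[1, 2^(KR)]`); `[1, 2^K) = ⊔_{e < K} [2^e, 2^(e+1))` in every coordinate (`Nat.log`; or `Finset.prod_univ_sum`). -/
def PRD_stmt : Prop := ∀ (R K : ℕ) (u : Fin R → ArithmeticFunction ℝ), (∀ i m, 2 ^ K ≤ m → u i m = 0) →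
  ∀ G : ℕ → ℂ, ∑ b ∈ Ioc 0 (2 ^ (K * R)), (((∏ i, u i) b : ℝ) : ℂ) * G b =
    ∑ e ∈ Fintype.piFinset (fun _ : Fin R => range K),
      ∑ m ∈ Fintype.piFinset (fun i : Fin R => Ico (2 ^ e i) (2 ^ (e i + 1))),
        (∏ i, ((u i (m i) : ℝ) : ℂ)) * G (∏ i, m i)

/-! ## Part C: Dirichlet polynomials -/

/-- **MVP** (medium, long). uses: TAM_stmt; `MVT_stmt` of CH (proved, helper4/CH/MVT.lean). Mean values of products.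
Proof. `M = ∏_{i ∈ I} M i ≤ 64 N³`. `∏_{i ∈ I} DPb (M i) (a i) t = ∑_n c n nit t n`, `M ≤ n < 2^R M`, `|c n| ≤ L^(cR) ·
#{(m_i) : ∏ m_i = n} ≤ L^(cR) tau n^R`. Cut into the blocks `[2^j M, 2^(j+1) M)`, `j < R` (for `I = ∅` the product is `1`),
Cauchy-Schwarz, MVT for each and TAM with `k = 2R`. -/
def MVP_stmt : Prop := ∀ R c : ℕ, ∃ K N₀ : ℕ, ∀ N : ℕ, N₀ ≤ N → ∀ (M : Fin R → ℕ) (a : Fin R → ℕ → ℂ),
  (∀ i, 1 ≤ M i) → ∏ i, M i ≤ 64 * N ^ 3 → (∀ i m, m < 2 * M i → ‖a i m‖ ≤ Real.log N ^ c) →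
  ∀ (I : Finset (Fin R)) (T : ℝ), 1 ≤ T →
  ∫ t in (-T)..T, ‖∏ i ∈ I, DPb (M i) (a i) t‖ ^ 2 ≤
    (T + ((∏ i ∈ I, M i : ℕ) : ℝ)) * ((∏ i ∈ I, M i : ℕ) : ℝ) * Real.log N ^ K

/-- **CS3** (medium). uses: nothing. Proof. On `|t| ≤ N`: Cauchy-Schwarz, `≤ Kc √(Ka Kb)`. On `2^i N < |t| ≤ 2^(i+1) N`, `i ≥ 0`: the
last factor is `≤ 8/4^i`, Cauchy-Schwarz with `T = 2^(i+1) N`: `≤ 8 · 4^(-i) · 2^(i+1) Kc √(Ka Kb)`; sum over the finitely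
many `i`: `≤ 32 Kc √(Ka Kb)`. -/
def CS3_stmt : Prop := ∀ (N B₁ : ℕ) (a b c : ℝ → ℂ) (Ka Kb Kc : ℝ), 1 ≤ N → Continuous a → Continuous b →
  Continuous c → 0 ≤ Ka → 0 ≤ Kb → 0 ≤ Kc →
  (∀ T : ℝ, (N : ℝ) ≤ T → ∫ t in (-T)..T, ‖a t‖ ^ 2 ≤ Ka * (T / N)) →
  (∀ T : ℝ, (N : ℝ) ≤ T → ∫ t in (-T)..T, ‖b t‖ ^ 2 ≤ Kb * (T / N)) →
  (∀ t ∈ Tset (1 / 200) B₁ N, ‖c t‖ ≤ Kc) →
  ∫ t in Tset (1 / 200) B₁ N, ‖a t‖ * ‖b t‖ * ‖c t‖ * min 1 (8 * (N : ℝ) ^ 2 / t ^ 2) ≤ 40 * (Kc * √(Ka * Kb))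

/-- **GRP** (medium; finite combinatorics of real numbers). uses: nothing. Proof. Let `a₁ ≥ a₂ ≥ a₃ ≥ a₄ ≥ a₅` be the five
largest, `c = 5` (`a₅ ≥ η`), `F` the other indices. If `a₁ > 1`: `A = {1}`; `4 a₅ ≤ a₂+..+a₅ ≤ 3 - a₁`, the rest is
`≥ (3/4)(3 - a₁) ≥ 1`. Let `a₁ ≤ 1`. If `a₁ + a₄ ≥ 1`: `A = {1,4}`; `a₄ + a₅ ≤ (3 - a₁)/2`, the rest is `3 - a₁ - a₄ - a₅ ≥
(3 - a₁)/2 ≥ 1`. If `a₁ + a₄ < 1`: `a₁+a₄+∑_F a ≥ 1` (else `a₂ + a₃ > 2 - a₅`, but `a₂ + a₃ ≤ 2 a₁ < 2 - 2a₄`); take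
`G ⊆ F` with `1 ≤ a₁+a₄+∑_G a < 1 + a₅` (add elements, all `≤ a₅`, one after the other); `A = {1,4} ∪ G`, the rest is
`> 2 - 2a₅ ≥ 1` (`a₅ ≤ a₄ < 1/2`). -/
def GRP_stmt : Prop := ∀ (R : ℕ) (a : Fin R → ℝ) (η : ℝ), 0 < η → (∀ i, 0 ≤ a i) → (∀ i, a i ≤ 5 / 3) →
  ∑ i, a i = 3 → 5 ≤ #(univ.filter fun i => η ≤ a i) →
  ∃ c : Fin R, η ≤ a c ∧ ∃ A : Finset (Fin R), c ∉ A ∧ 1 ≤ ∑ i ∈ A, a i ∧ 1 ≤ ∑ i ∈ (univ \ A).erase c, a i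

/-- **BL5** (medium, long). uses: GRP_stmt, CS3_stmt, MVP_stmt. At least five long blocks. Proof. `P = ∏ M i`, GRP for
`a i = 3 log(M i)/log P` and threshold `3 η L/log P` (`a i ≤ 5/3` since `(8/5) L ≤ (5/9) log P`). `M_A = ∏_A M i ≥ P^(1/3) ≥
N/2^(R+4)`, same for the rest `D`. MVP: for `T ≥ N`, `(T + M_A) M_A ≤ (T/N)(N + M_A) M_A ≤ (T/N) 2^(R+5) M_A²`. CS3 with
`Kc = M_c/L^A₁`: `≤ 40 · 2^(R+5) P L^(K-A₁)`, `P ≤ 8N³`. -/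
def BL5_stmt : Prop := ∀ (R c A : ℕ) (η : ℝ), 0 < η → ∃ A₁ N₀ : ℕ, ∀ N : ℕ, N₀ ≤ N → ∀ (B₁ : ℕ) (M : Fin R → ℕ)
  (a : Fin R → ℕ → ℂ), (∀ i, 1 ≤ M i) → (∀ i m, m < 2 * M i → ‖a i m‖ ≤ Real.log N ^ c) →
  N ^ 3 ≤ 2 ^ (R + 4) * ∏ i, M i → ∏ i, M i ≤ 8 * N ^ 3 → (∀ i, (M i : ℝ) ≤ (N : ℝ) ^ (8 / 5 : ℝ)) →
  5 ≤ #(univ.filter fun i : Fin R => (N : ℝ) ^ η ≤ M i) →
  (∀ i, (N : ℝ) ^ η ≤ M i → ∀ t ∈ Tset (1 / 200) B₁ N, ‖DPb (M i) (a i) t‖ ≤ M i / Real.log N ^ A₁) →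
  ∫ t in Tset (1 / 200) B₁ N, (∏ i, ‖DPb (M i) (a i) t‖) * min 1 (8 * (N : ℝ) ^ 2 / t ^ 2) ≤
    (N : ℝ) ^ 3 / Real.log N ^ A

/-- **BL4** (long). uses: MVP_stmt. At most four long blocks. Proof. Exponents with respect to `N`; `m_i = log M_i/L`, `o` = any small
loss. `P = ∏ M_i = N^(3-o)`; the at least `R - 4` short blocks have product `≤ N^(14/1000)`. So `m_c ≥ (2.986 - o)/4 ≥ 0.746`
for `c = i₀`, `m_c ≤ 1.01`; let `b ≠ c` be the second largest, `m_b ≥ (2.986 - o - m_c)/3 ≥ 0.658` (at most three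
other long blocks, and they exist), `D` = all others, `m_D = 3 - o - m_c - m_b ≥ 0.98 - o`. For `T ≥ 1`, by MVP and
Cauchy-Schwarz, `J(T) = ∫_{|t| ≤ 2T} ‖P_b‖ ‖P_D‖ ≤ 4 ((T + M_b)(T + M_D) M_b M_D)^(1/2) L^K`. First part `L^c M_c/|t|` of the
bound for `P_c`: dyadic blocks `T < |t| ≤ 2T`, `L^B₁ ≤ 2T`: `(M_c/T) J(T) ≤ 8 P L^(K+c) max(1/T, 1/√T, N^(-1/2)) ≤
8 P L^(K+c-B₁/2)`, `≤ 3L` blocks. Second part `L^c √|t|`, `|t| ≤ T = N^(1.01)`: `≤ L^c √T J(T)`, relative to `P` the exponent is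
`0.505 - m_c + max(0, 1.01 - m_b)/2 + max(0, 1.01 - m_D)/2 + o ≤ 0.505 - m_c + (0.0147 + m_c/3)/2 + 0.015 + o ≤
0.528 - (5/6) m_c + o ≤ -0.09 + o`. -/
def BL4_stmt : Prop := ∀ A c : ℕ, ∃ B₂ : ℕ, ∀ B₁ : ℕ, B₂ ≤ B₁ → ∃ N₀ : ℕ, ∀ N : ℕ, N₀ ≤ N → ∀ R : ℕ, R ≤ 14 →
  ∀ (M : Fin R → ℕ) (a : Fin R → ℕ → ℂ) (i₀ : Fin R), (∀ i, 1 ≤ M i) →
  (∀ i m, m < 2 * M i → ‖a i m‖ ≤ Real.log N ^ c) →
  N ^ 3 ≤ 2 ^ (R + 4) * ∏ i, M i → ∏ i, M i ≤ 8 * N ^ 3 → (∀ i, (M i : ℝ) ≤ (N : ℝ) ^ (101 / 100 : ℝ)) →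
  #(univ.filter fun i : Fin R => (N : ℝ) ^ (1 / 1000 : ℝ) ≤ M i) ≤ 4 → (∀ i, M i ≤ M i₀) →
  (∀ t : ℝ, 1 ≤ |t| → ‖DPb (M i₀) (a i₀) t‖ ≤ Real.log N ^ c * (M i₀ / |t| + √|t|)) →
  ∫ t in Tset (1 / 200) B₁ N, ∏ i, ‖DPb (M i) (a i) t‖ ≤ (N : ℝ) ^ 3 / Real.log N ^ A

/-- **SPK** (medium). uses: ABL_stmt; `SUP_stmt` (helper43/CH/SUP.lean), `VP_stmt`, `CHS_stmt` of CH (all proved). Sup bounds for
all kinds of factors. Proof. `cel a b`: the sum over the primes of `[max(M, ⌈a⌉), min(2M, ⌈b⌉))`: SUP (c). `muz z`: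
difference of two partial sums of `μ χ n^(it)` at points between `M` and `2M` (or empty): VP with `x` between
`M - 1 ≥ N^(η/2)` and `2M`, `log N ≤ (2/η) log x`, `K` with `N² ≤ x^K`, one more power of the logarithm. `sml X 0`: the
same with CHS (its `x` is `N^4`, say: `exp(dl x) ≤ N^η/2`). `sml X 1`: ABL (`R n = log n`). -/
def SPK_stmt : Prop := ∀ (A Bq : ℕ) (η : ℝ), 0 < η → ∃ B₁ N₀ : ℕ, ∀ N : ℕ, N₀ ≤ N → ∀ q : ℕ, 1 ≤ q →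
  (q : ℝ) ≤ Real.log N ^ Bq → ∀ χ : DirichletCharacter ℂ q, ∀ u : ArithmeticFunction ℝ,
  ((∃ z, u = muz z) ∨ (∃ X, u = sml X 0) ∨ (∃ X, u = sml X 1) ∨ ∃ a b : ℝ, u = cel a b) →
  ∀ M : ℕ, (N : ℝ) ^ η ≤ M → M ≤ 64 * N ^ 3 → ∀ t : ℝ, Real.log N ^ B₁ ≤ |t| → |t| ≤ (N : ℝ) ^ 2 →
  ‖DPb M (fun m => ((u m : ℝ) : ℂ) * χ m) t‖ ≤ M / Real.log N ^ A

/-- **VD1** (medium, long). uses: `AM.KL_stmt` (Kusmin-Landau, proved: helper63/AM/KL.lean). The second derivative test for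
`n^(it)`. Proof. `t > 0` (conjugate). `nit t y = AM.ee (f y)` resp. `exp(2πi f)`, `f y = (t/2π) log y`; `x_k = f(a + k + θ)`,
increments `D_k = (t/2π) log(1 + 1/(a+k+θ))`, decreasing, in `[t/(8πM), t/(2πM)]`. If `t ≤ πM`: KL with `θ' = t/(8πM)`
(`D_k ≤ 1/2 ≤ 1 - θ'`): `≤ 8πM/t`. If `t ≥ M²`: trivial, `M ≤ √t`. Otherwise `πM < t < M²`: `θ' = √t/(2M) ≤ 1/2`,
`D_k - D_(k+1) ≥ t/(32πM²) =: λ` (`a + k + θ ≤ 2M + 1 ≤ 3M`). For every integer `m ≤ t/(2πM) + 1`: the `k` with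
`m + θ' ≤ D_k ≤ m + 1 - θ'` form an interval, KL for `x_k - m k`: `≤ 1/θ'` (plus one term); the `k` with `|D_k - m| < θ'` are
at most `2θ'/λ + 1`. Total `(t/(2πM) + 3)(1/θ' + 2θ'/λ + 3) ≤ C √t`. -/
def VD1_stmt : Prop := ∃ C : ℝ, 0 < C ∧ ∀ (M a b : ℕ) (t θ : ℝ), 1 ≤ M → M ≤ a → a ≤ b → b ≤ 2 * M → 0 ≤ θ →
  θ ≤ 1 → 1 ≤ |t| → ‖∑ n ∈ Ico a b, nit t (n + θ)‖ ≤ C * (M / |t| + √|t|)

/-- **VDK** (medium). uses: VD1_stmt, ABL_stmt. Smooth polynomials with a character. Proof. Partial sums over `[M, u)`, `u ≤ 2M`: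
for `M < 2q` trivial (`M ≤ 2q √|t|`); otherwise `n = q m + s`, `1 ≤ s ≤ q`, `nit t n = nit t q · nit t (m + s/q)`, `m` in an
interval of `[M', 2M' + 4]`, `M' = ⌊M/q⌋ - 1 ≥ 1`: VD1 (and at most 5 more terms). Factor `log n`: ABL; cut at `X`: `u`. -/
def VDK_stmt : Prop := ∃ C : ℝ, 0 < C ∧ ∀ q : ℕ, 1 ≤ q → ∀ (χ : DirichletCharacter ℂ q) (X h M : ℕ) (t : ℝ),
  h ≤ 1 → 1 ≤ M → 1 ≤ |t| →
  ‖DPb M (fun m => ((sml X h m : ℝ) : ℂ) * χ m) t‖ ≤ C * q * (1 + Real.log (2 * M)) * (M / |t| + √|t|)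

/-! ## Part D: the twisted sums -/

/-- **BLK** (medium, long). uses: BL5_stmt, BL4_stmt, SPK_stmt, VDK_stmt. One block. Proof. `R = r + 2i`, `M k = 2^(e k)`,
`a k = uu.. k · χ`. If some polynomial vanishes identically the integral is `0`. So `M k` is at most the cut of its
factor: `M k ≤ N^(3/2)` (prime variables), `≤ zN N`, `≤ YN N`; and `M k ≥ N^(a k)/2` for the prime variables.
Coefficients `≤ log(4 N^(3/2)) ≤ L²`. `Adr`, first case `r = 0`: if at least five `k` have `M k ≥ N^(1/1000)`: BL5; else BL4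
(`R ≤ 14`; the longest block has `M^4 ≥ N^(3-14/1000)/2^(R+4)`, so `M > zN N` and the factor is `sml`: VDK). Second
case `AdT`: with `η = min(1/1000, a_j/2, (3 - ∑ b)/16)` all prime variables are long, and one of the other `2i ≤ 14`:
their product is `≥ N^(3-∑ b)/2^(R+4)`. So at least five long: BL5. -/
def BLK_stmt : Prop := ∀ (r : ℕ) (a b : Fin r → ℝ), Adr a b → ∀ A Bq : ℕ, ∃ B₁ N₀ : ℕ, ∀ N : ℕ, N₀ ≤ N → ∀ q : ℕ,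
  1 ≤ q → (q : ℝ) ≤ Real.log N ^ Bq → ∀ χ : DirichletCharacter ℂ q, ∀ i ∈ Icc 1 7, ∀ e : Fin (r + 2 * i) → ℕ,
  N ^ 3 ≤ 2 ^ (r + 2 * i + 4) * ∏ k, 2 ^ e k → ∏ k, 2 ^ e k ≤ 8 * N ^ 3 →
  ∫ t in Tset (1 / 200) B₁ N, (∏ k, ‖DPb (2 ^ e k)
      (fun m => ((uu N (zN N) (YN N) a b i k m : ℝ) : ℂ) * χ m) t‖) * min 1 (8 * (N : ℝ) ^ 2 / t ^ 2) ≤
    (N : ℝ) ^ 3 / Real.log N ^ A

/-- **SML** (long). uses: PRD_stmt, FGB_stmt, BLK_stmt, G0B_stmt; library: `Pool.Agent.helper9.Tors.divisor_bound`. All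
variables bounded. Proof. `R = r + 2i`, `N² ≤ 2^K ≤ 2N²`; all `uu` vanish from `2^K` on. `gj` vanishes outside
`(N³/8, 8N³)`, so the sum over `m ≤ 64N³` is the sum over `m ≤ 2^(KR)` (both contain the support), PRD with
`G m = χ m gj m`. A block with `∏ 2^(e k) > 8N³` or `2^(R+4) ∏ 2^(e k) < N³` contributes `0`. There are at most `(4L)^R`
others: FGB with `S` = the tuples, `x = ∏ m_k`, `f = ∏ uu(m_k) χ(m_k)`; `∑ f nit t x = ∏ DPb` (`Finset.prod_univ_sum`);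
`∑ ‖f‖ ≤ 8N³ L^(2R)`; the tuples with `|log x - v| ≤ 2/N`: at most `C N²` values `j` of `x`, each for at most
`tau j^R ≤ N^(1/400)` tuples. BLK for the integral. -/
def SML_stmt : Prop := ∀ (r : ℕ) (a b : Fin r → ℝ), Adr a b → ∀ A Bq : ℕ, ∃ B₀ : ℕ, ∀ B : ℕ, B₀ ≤ B → ∃ N₀ : ℕ,
  ∀ N : ℕ, N₀ ≤ N → ∀ v : ℝ, |v - 3 * Real.log N| ≤ 1 → ∀ q : ℕ, 1 ≤ q → (q : ℝ) ≤ Real.log N ^ Bq →
  ∀ χ : DirichletCharacter ℂ q, ∀ i ∈ Icc 1 7,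
  ‖∑ m ∈ Ioc 0 (64 * N ^ 3), (((∏ k, uu N (zN N) (YN N) a b i k) m : ℝ) : ℂ) * χ m * gj B N v m‖ ≤
    (N : ℝ) ^ 2 / Real.log N ^ A

/-- **SPT** (short, medium). uses: DEC_stmt, SML_stmt, TI_stmt. Proof. DEC with `z = zN N`, `X = YN N` (`64N³ ≤ zN^7`), the `E`
satisfy the hypothesis of TI with `K + 1` (`K(1 + log d) ≤ L^2` for large `N`). -/
def SPT_stmt : Prop := ∀ (r : ℕ) (a b : Fin r → ℝ), Adr a b → ∀ A Bq : ℕ, ∃ B₀ : ℕ, ∀ B : ℕ, B₀ ≤ B → ∃ N₀ : ℕ,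
  ∀ N : ℕ, N₀ ≤ N → ∀ v : ℝ, |v - 3 * Real.log N| ≤ 1 → ∀ q : ℕ, 1 ≤ q → (q : ℝ) ≤ Real.log N ^ Bq →
  ∀ χ : DirichletCharacter ℂ q,
  ‖∑ m ∈ Ioc 0 (64 * N ^ 3), ((TL N a b m : ℝ) : ℂ) * χ m * gj B N v m‖ ≤ (N : ℝ) ^ 2 / Real.log N ^ A

/-- **PSR** (short, medium). uses: nothing; `psi_char`, `psi_pnt` (helper74/TG/SW8 ..). Sums of `Λ χ` up to `u ≤ U`, relative to
`U ≥ N^κ`. Proof. `u ≥ √U`: `psi_char` with exponents `A + 1`, `Bq + 1` (`log u ≥ (κ/2) L`); `u < √U`: trivially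
`≤ √U log U`. -/
def PSR_stmt : Prop := ∀ (A Bq : ℕ) (κ : ℝ), 0 < κ → ∃ N₀ : ℕ, ∀ N : ℕ, N₀ ≤ N → ∀ U : ℝ, (N : ℝ) ^ κ ≤ U →
  U ≤ 64 * (N : ℝ) ^ 3 → ∀ u : ℕ, (u : ℝ) ≤ U →
  (∀ q : ℕ, 1 ≤ q → (q : ℝ) ≤ Real.log N ^ Bq → ∀ χ : DirichletCharacter ℂ q, χ ≠ 1 →
    ‖∑ n ∈ Ioc 0 u, (vonMangoldt n : ℂ) * χ n‖ ≤ U / Real.log N ^ A) ∧
  ‖∑ n ∈ Ioc 0 u, ((vonMangoldt n : ℂ) - 1)‖ ≤ U / Real.log N ^ A

/-- **WID** (medium, long). uses: TRB_stmt, ABL_stmt, TLD_stmt, PSR_stmt. The wide triangle, `χ ≠ 1`. Proof. For fixed primes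
`p_1, ..., p_r`, `P = ∏ p_i < N^(∑ b)`: the sum over `n ≤ 64N³/P` of `Λ(n) χ(n) tr0 v δ' (log(Pn))`; `tr0` is a difference of
two nondecreasing functions with values in `[0,1]` (TRB (6)), ABL and PSR with `U = 64N³/P ≥ N^κ`, `κ = (3 - ∑ b)/2` (`κ = 1`
if `r = 0`): `≤ 4 U/L^A'`. Sum over the tuples: `∑ 1/P ≤ (1 + log(64N³))^r`. -/
def WID_stmt : Prop := ∀ (r : ℕ) (a b : Fin r → ℝ), Adr a b → ∀ A Bq : ℕ, ∃ N₀ : ℕ, ∀ N : ℕ, N₀ ≤ N → ∀ v δ : ℝ,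
  0 < δ → ∀ q : ℕ, 1 ≤ q → (q : ℝ) ≤ Real.log N ^ Bq → ∀ χ : DirichletCharacter ℂ q, χ ≠ 1 →
  ‖∑ m ∈ Ioc 0 (64 * N ^ 3), ((TL N a b m : ℝ) : ℂ) * χ m * ((tr0 v δ (Real.log m) : ℝ) : ℂ)‖ ≤
    (N : ℝ) ^ 3 / Real.log N ^ A

/-- **SCN** (short). uses: SPT_stmt, WID_stmt. Proof. `tr0 v (1/N) = g0 B N v + (L^B/N) tr0 v (1/L^B)`, WID with exponent
`A + B + 1`. -/
def SCN_stmt : Prop := ∀ (r : ℕ) (a b : Fin r → ℝ), Adr a b → ∀ A Bq : ℕ, ∃ N₀ : ℕ, ∀ N : ℕ, N₀ ≤ N → ∀ v : ℝ,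
  |v - 3 * Real.log N| ≤ 1 → ∀ q : ℕ, 1 ≤ q → (q : ℝ) ≤ Real.log N ^ Bq → ∀ χ : DirichletCharacter ℂ q, χ ≠ 1 →
  ‖∑ m ∈ Ioc 0 (64 * N ^ 3), ((TL N a b m : ℝ) : ℂ) * χ m * ((tr0 v (1 / (N : ℝ)) (Real.log m) : ℝ) : ℂ)‖ ≤
    (N : ℝ) ^ 2 / Real.log N ^ A

/-- **WNF** (medium). uses: TRB_stmt. The window and its mass. Proof. (1) `|vN N - 3 log N| = 5/(4N)`. (2) `fN ≠ 0` only if
`|log m - vN| < 1/N`, so `3 log N + 1/(4N) < log m < 3 log N + 9/(4N) ≤ 3 log(N+1)` (`log(1+x) ≥ x - x²/2`, `N ≥ 2`), hence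
`m ∈ Win N ⊆ Ioc 0 (64N³)`. (3) `∑ tr0 (log m)` is within `2` of `∫ tr0 (log u) du = ∫ tr0(w) e^w dw ∈ [N²,
N² e^(9/(4N))]` (difference of two nondecreasing functions). -/
def WNF_stmt : Prop := ∃ N₀ : ℕ, ∀ N : ℕ, N₀ ≤ N → |vN N - 3 * Real.log N| ≤ 1 ∧
  (∀ c : ℕ → ℂ, ∑ m ∈ Win N, c m * ((fN N m : ℝ) : ℂ) =
    ∑ m ∈ Ioc 0 (64 * N ^ 3), c m * ((tr0 (vN N) (1 / (N : ℝ)) (Real.log m) : ℝ) : ℂ)) ∧
  |XN N - (N : ℝ) ^ 2| ≤ 10 * N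

/-- **PNW** (medium). uses: SPT_stmt, TI1_stmt, PSR_stmt, ABL_stmt, TRB_stmt, WNF_stmt. The prime number theorem in every window.
Proof. `v = vN N`. `Λ - 1` against `tr0 v (1/N) = g0 + (L^B/N) tr0 v (1/L^B)`: `∑ Λ g0`: SPT with `r = 0`, `q = 1`; `∑ g0`: TI1
(3) with `d = 1`, `Y = 1`, `q = 1`, `h = 0`; the wide triangle: ABL (two monotone functions) and PSR with `U = 64N³`. -/
def PNW_stmt : Prop := ∀ A : ℕ, ∃ N₀ : ℕ, ∀ N : ℕ, N₀ ≤ N →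
  |∑ m ∈ Win N, vonMangoldt m * fN N m - XN N| ≤ (N : ℝ) ^ 2 / Real.log N ^ A

/-- **GCD** (medium). uses: TLD_stmt, TLB_stmt. Elements with a common factor with `M`. Proof. `0 ≤ fN ≤ 1`, `TL ≤ C L`. If `TL m ≠ 0`
and `(m, M) > 1`: `m = p_1..p_r n`, `n` a power of a prime, and a prime `p ∣ M` is one of the `p_i`, so `p ≥ N^α`,
`α = min a_i`; or `n = p^k`, `n ≥ N³/(2 ∏ p_i) ≥ N^κ/2`, `κ = 3 - ∑ b`. `M ≤ 64N³` has at most `4/α` prime factors `≥ N^α` and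
at most `5L` prime factors; so `m` is a multiple of one of at most `C L²` numbers `≥ N^(min(α,κ))/2`, each has at most
`#(Win N)/d + 1` multiples in the window. -/
def GCD_stmt : Prop := ∀ (r : ℕ) (a b : Fin r → ℝ), Adr a b → ∀ A : ℕ, ∃ N₀ : ℕ, ∀ N : ℕ, N₀ ≤ N → ∀ M : ℕ, 0 < M →
  M ≤ 64 * N ^ 3 → ∑ m ∈ Win N with ¬ Nat.Coprime m M, TL N a b m * fN N m ≤ (N : ℝ) ^ 2 / Real.log N ^ A

/-- **SCK** (medium). uses: SCN_stmt, GCD_stmt, WNF_stmt. The characters of small conductor modulo `M`. Proof. As `SC` of CH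
(helper28/CH/SC.lean). `ks R M c m = (1/φ(M)) Re ∑_χ conj χ(c) χ(m)` over the `χ` mod `M` of conductor `d ≤ R`: `χ m = χ' m` for
`(m,M) = 1`, `χ'` primitive mod `d`, and `0` otherwise. Conductor `1` is the principal character (`χ(c) = 1`):
`∑_{(m,M)=1} TL fN = ∑ TL fN - (GCD)`. The others: SCN for `χ'` (`≠ 1`) and GCD; at most `R² ≤ L^(2Bq)` characters. -/
def SCK_stmt : Prop := ∀ (r : ℕ) (a b : Fin r → ℝ), Adr a b → ∀ A Bq : ℕ, ∃ N₀ : ℕ, ∀ N : ℕ, N₀ ≤ N →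
  ∀ M c R : ℕ, 0 < M → M ≤ 64 * N ^ 3 → Nat.Coprime c M → 1 ≤ R → (R : ℝ) ≤ Real.log N ^ Bq →
  |∑ m ∈ Win N, TL N a b m * fN N m * ks R M c m -
      (1 / (Nat.totient M : ℝ)) * ∑ m ∈ Win N, TL N a b m * fN N m| ≤
    (1 / (Nat.totient M : ℝ)) * ((N : ℝ) ^ 2 / Real.log N ^ A)

/-- **CMW** (medium, long). uses: SPT_stmt, WNF_stmt, TRB_stmt, TLB_stmt. `theorem CMW (..) : Pool.Agent.EC.CMP_stmt`.
Proof. `B` from SPT (`A = 1`, `Bq = 0`, `q = 1`), `v = vN N`, `δ' = 1/L^B`. `∑ TL fN = ∑ TL g0 + (L^B/N) ∑ TL tr0 v δ' (log m)`, the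
first `≤ N²/L`. Let `k₀` be a fixed integer with `D/k₀ ≤ κ/8`. For `0 ≤ t ≤ 1`, `t ≤ (1/k₀) #{k < k₀ : k/k₀ < t}`, and
`k/k₀ < tr0 v δ' (log m)` implies `|log m - v| < (1 - k/k₀) δ'`: `m ∈ (u, u+h]`, `u = e^(v - (1-k/k₀)δ') - 1`,
`u + h = e^(v + (1-k/k₀)δ')`, `h ≥ u/L^(B+1)`; so `∑ TL tr0 ≤ (D/k₀) ∑_k h_k`, `h_k ≤ 2 e^v (1 - k/k₀) δ' (1 + δ') + 1`,
`(1/k₀) ∑ 2(1 - k/k₀) = 1 + 1/k₀`. Hence `∑ TL fN ≤ D (e^v/N)(1 + 1/k₀)(1 + o(1)) + N²/L`, `e^v/N ≤ N² (1 + 3/N)`, and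
`XN N ≥ N² - 10N`. -/
def CMW_stmt : Prop := Pool.Agent.EC.CMP_stmt

/-- **E3** (medium, long). uses: FGB_stmt, CS3_stmt, G0B_stmt, TAM_stmt; `MVT_stmt` of CH. Three variables of length
about `N` (for the edges of helper62). Proof. Dyadic blocks `M_a, M_b, M_c` (powers of 2, at most `C' L³` triples); `gj`
vanishes unless `N³/64 ≤ M_a M_b M_c ≤ 8N³`, so each of them is `≥ N L^(-2C)/64`. FGB for each block (`∑ ‖f‖ ≤ 8N³ L^(3c)`; near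
tuples: `tau j^2 ≤ N^(1/400)` times `C N²` values of `j`); `F(t) = P_a P_b P_c`, CS3 with the middle one as the sup factor;
MVT: `∫_{-T}^T ‖P_a‖² ≤ C (T + M_a) M_a L^(2c+1) ≤ (T/N) M_a² L^(2C+2c+2)` for `T ≥ N`. -/
def E3_stmt : Prop := ∀ A C c : ℕ, ∃ A₁ : ℕ, ∀ B₁ : ℕ, ∃ B₀ : ℕ, ∀ B : ℕ, B₀ ≤ B → ∃ N₀ : ℕ, ∀ N : ℕ, N₀ ≤ N →
  ∀ v : ℝ, |v - 3 * Real.log N| ≤ 1 → ∀ α β γ : ℕ → ℂ,
  (∀ n, ‖α n‖ ≤ Real.log N ^ c ∧ ‖β n‖ ≤ Real.log N ^ c ∧ ‖γ n‖ ≤ Real.log N ^ c) →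
  (∀ n : ℕ, N * Real.log N ^ C < n → α n = 0 ∧ β n = 0 ∧ γ n = 0) →
  (∀ M : ℕ, (N : ℝ) ^ (1 / 2 : ℝ) ≤ M → M ≤ N ^ 2 → ∀ t ∈ Tset (1 / 200) B₁ N,
    ‖DPb M β t‖ ≤ M / Real.log N ^ A₁) →
  ‖∑ x ∈ Ioc 0 ⌊N * Real.log N ^ C⌋₊, ∑ y ∈ Ioc 0 ⌊N * Real.log N ^ C⌋₊, ∑ z ∈ Ioc 0 ⌊N * Real.log N ^ C⌋₊,
      α x * β y * γ z * gj B N v (x * y * z)‖ ≤ (N : ℝ) ^ 2 / Real.log N ^ A

end Pool.Agent.SK
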