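import Pool.Agent.helper24.SK.Spec
import Pool.Agent.helper62.W3.Defs

/-!
# Project sk (MP_5628fe_nt), part E: small conductors for the edge function of the primes

Rules as in Spec.lean (import this file instead). `edg C N j = - ∑_{a b c = j; a, b, c ≤ U} μ(a) Λ(b)` on the
`yN N`-rough `j`, `U = UN C N = ⌊N L^C⌋`, `yN N = exp(L^(19/20))` (`helper62/W3/Defs.lean`); `j` rough iff `a, b, c` rough.
-/

set_option autoImplicit false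

namespace Pool.Agent.SK

open Finset ArithmeticFunction MeasureTheory
open Pool.Agent.CH (nit DPb Win Tset ph rgh)
open Pool.Agent.EC (tri vN fN XN TL AdT yN UN edg)
open Pool.Agent.helper85.BVP (tau)
open GD (ks)

open Classical in
/-- `f` on the `yN N`-rough integers of `[1, UN C N]` -/
noncomputable def rf (C N : ℕ) (f : ℕ → ℂ) (n : ℕ) : ℂ := if rgh (yN N) n ∧ n ≤ UN C N then f n else 0

/-- **ETR** (medium). uses: nothing. The edge function as a triple sum. Proof. `eU U (j/c) = ∑_{ab = j/c} μ(a) Λ(b)`,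
`a, b ≤ U` (`trunc`); `j = abc` is rough iff `a, b, c` are (all `≥ 1`); `G` vanishes beyond `64N³`. -/
def ETR_stmt : Prop := ∀ (C N : ℕ) (G : ℕ → ℂ), (∀ j, 64 * N ^ 3 < j → G j = 0) →
  ∑ j ∈ Ioc 0 (64 * N ^ 3), ((edg C N j : ℝ) : ℂ) * G j =
    - ∑ x ∈ Ioc 0 (UN C N), ∑ y ∈ Ioc 0 (UN C N), ∑ z ∈ Ioc 0 (UN C N),
      rf C N (fun n => ((moebius n : ℤ) : ℂ)) x * rf C N (fun n => (vonMangoldt n : ℂ)) y * rf C N (fun _ => 1) z *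
        G (x * y * z)

/-- **SLR** (medium). uses: `VP_stmt` of CH (proved). Proof. The block cut at `U` is a difference of two partial sums of
`Λ χ n^(it)` (VP at points between `M - 1` and `2M`, `M ≥ N^(1/2)`, compare SUP of CH and SPK), minus the powers of the
primes `p ≤ yN N`: at most `yN N · 5L` of them, each `≤ 5L`, and `yN N = exp(L^(19/20)) ≤ N^(1/8)`. -/
def SLR_stmt : Prop := ∀ A Bq C : ℕ, ∃ B₁ N₀ : ℕ, ∀ N : ℕ, N₀ ≤ N → ∀ q : ℕ, 1 ≤ q → (q : ℝ) ≤ Real.log N ^ Bq →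
  ∀ χ : DirichletCharacter ℂ q, ∀ M : ℕ, (N : ℝ) ^ (1 / 2 : ℝ) ≤ M → M ≤ N ^ 2 → ∀ t ∈ Tset (1 / 200) B₁ N,
  ‖DPb M (fun n => rf C N (fun n => (vonMangoldt n : ℂ)) n * χ n) t‖ ≤ M / Real.log N ^ A

/-- **ENW** (short, medium). uses: ETR_stmt, SLR_stmt, E3_stmt, G0B_stmt. Proof. ETR with `G j = χ j gj j` (`gj` vanishes for
`j > 8N³`), `χ(xyz) = χ x χ y χ z`, E3 with exponent `c = 2` (`Λ ≤ L²`), `UN C N = ⌊N L^C⌋`, `B₁` from SLR. -/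
def ENW_stmt : Prop := ∀ A Bq C : ℕ, ∃ B₀ : ℕ, ∀ B : ℕ, B₀ ≤ B → ∃ N₀ : ℕ, ∀ N : ℕ, N₀ ≤ N → ∀ v : ℝ,
  |v - 3 * Real.log N| ≤ 1 → ∀ q : ℕ, 1 ≤ q → (q : ℝ) ≤ Real.log N ^ Bq → ∀ χ : DirichletCharacter ℂ q,
  ‖∑ j ∈ Ioc 0 (64 * N ^ 3), ((edg C N j : ℝ) : ℂ) * χ j * gj B N v j‖ ≤ (N : ℝ) ^ 2 / Real.log N ^ A

/-- **EWD** (medium). uses: ETR_stmt, PSR_stmt, ABL_stmt, TRB_stmt. The wide triangle, `χ ≠ 1`. Proof. ETR (`G = χ tr0(log ·)`, `0`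
beyond `64N³`: the hypothesis `v + δ ≤ 3L + 2`). For fixed rough `x, z ≤ U`: the sum over the rough `y ≤ U` of `Λ χ tr0 v δ
(log(xyz))`; `tr0` is a difference of two nondecreasing functions of `y`; ABL with `K = sup_{u ≤ U} ‖∑_{y ≤ u, rough} Λ χ‖ ≤
N L^C/L^A' + 25 L² yN N` (PSR with its `U` equal to `N L^C`, minus the powers of the primes `≤ yN N`). At most `U²` pairs. -/
def EWD_stmt : Prop := ∀ A Bq C : ℕ, ∃ N₀ : ℕ, ∀ N : ℕ, N₀ ≤ N → ∀ v δ : ℝ, 0 < δ → v + δ ≤ 3 * Real.log N + 2 →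
  ∀ q : ℕ, 1 ≤ q → (q : ℝ) ≤ Real.log N ^ Bq → ∀ χ : DirichletCharacter ℂ q, χ ≠ 1 →
  ‖∑ j ∈ Ioc 0 (64 * N ^ 3), ((edg C N j : ℝ) : ℂ) * χ j * ((tr0 v δ (Real.log j) : ℝ) : ℂ)‖ ≤
    (N : ℝ) ^ 3 / Real.log N ^ A

/-- **EGC** (medium). uses: nothing. Proof. For rough `j ≤ 8N³` (`Win N`): `Ω(j) ≤ log j/log(yN N) ≤ 5 L^(1/20)`, `τ(j) ≤
2^(5 L^(1/20))`, `|edg| ≤ ∑_{c ∣ j} ∑_{b ∣ j/c} Λ(b) ≤ τ(j) log j`. If `(j, M) > 1` some prime `p > yN N` divides both; `M` has at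
most `5L` prime factors (`M ≤ 64N³`), each has `≤ 4N²/p + 1` multiples in the window; `yN N` beats everything. -/
def EGC_stmt : Prop := ∀ A C : ℕ, ∃ N₀ : ℕ, ∀ N : ℕ, N₀ ≤ N → ∀ M : ℕ, 0 < M → M ≤ 64 * N ^ 3 →
  ∑ j ∈ Win N with ¬ Nat.Coprime j M, |edg C N j| * fN N j ≤ (N : ℝ) ^ 2 / Real.log N ^ A

/-- **ESC** (medium). uses: ENW_stmt, EWD_stmt, EGC_stmt, WNF_stmt. `theorem ESC (..) : Pool.Agent.EC.SCE_stmt`.
Proof. As SCK (and SC of CH, helper28/CH/SC.lean): for a primitive `χ ≠ 1` mod `d ≤ L^B`: `∑ edg χ tr0 v (1/N) = ∑ edg χ g0 +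
(L^B'/N) ∑ edg χ tr0 v (1/L^B')`, ENW and EWD (exponent `A + B' + ..`), `v = vN N`; WNF turns `fN` on `Win N` into `tr0` on
`Ioc 0 (64N³)`; EGC for the `j` not prime to `M`. -/
def ESC_stmt : Prop := Pool.Agent.EC.SCE_stmt

end Pool.Agent.SK
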